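import Pool.Agent.Helper78.BigMap.Goals

set_option autoImplicit false

/-!
Packets A1, A2, A3 for MP_2b9d24_gt: homeomorphisms acting trivially on the ends tend to the
identity at the planar ends of the patch.
-/

open Topology Filter Set Metric

namespace Pool.Agent.Helper89.BigA

open Pool.Agent.Helper78.BigMap

/-! ### The plane minus a closed totally disconnected subset of the line -/

theorem interior_empty {E : Set ℝ} (hE : IsTotallyDisconnected E) : interior E = ∅ := by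
  by_contra h
  obtain ⟨x, hx⟩ := Set.nonempty_iff_ne_empty.2 h
  obtain ⟨ε, hε, hb⟩ := Metric.isOpen_iff.1 isOpen_interior x hx
  have h1 : (ball x ε) ⊆ E := hb.trans interior_subset
  have h2 : (ball x ε).Subsingleton := hE _ h1 (Metric.isPreconnected_ball)
  have h3 : x = x + ε / 2 := h2 (mem_ball_self hε) (by
    rw [mem_ball, Real.dist_eq]
    rw [add_sub_cancel_left, abs_of_pos (by linarith)]
    linarith)
  linarith

theorem inC_iff {E : Set ℝ} {z : ℂ} : z ∈ inC E ↔ z.im = 0 ∧ z.re ∈ E := by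
  constructor
  · rintro ⟨y, hy, rfl⟩
    simpa using hy
  · rintro ⟨h1, h2⟩
    exact ⟨z.re, h2, by apply Complex.ext <;> simp [h1]⟩

theorem isClosed_inC {E : Set ℝ} (hE : IsClosed E) : IsClosed (inC E) := by
  have : inC E = (fun z : ℂ => z.im) ⁻¹' {0} ∩ (fun z : ℂ => z.re) ⁻¹' E := by
    ext z
    rw [inC_iff]
    rfl
  rw [this]
  exact (isClosed_singleton.preimage Complex.continuous_im).inter
    (hE.preimage Complex.continuous_re)

/-- Good radii. -/
theorem exists_radius {E : Set ℝ} (hE : IsClosed E) (hT : IsTotallyDisconnected E) (x ε : ℝ)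
    (hε : 0 < ε) : ∃ r, 0 < r ∧ r < ε ∧ x + r ∉ E ∧ x - r ∉ E := by
  have h0 := interior_empty hT
  have c1 : IsClosed ((fun r : ℝ => x + r) ⁻¹' E) := hE.preimage (by fun_prop)
  have c2 : IsClosed ((fun r : ℝ => x - r) ⁻¹' E) := hE.preimage (by fun_prop)
  have i1 : interior ((fun r : ℝ => x + r) ⁻¹' E) = ∅ := by
    have := (Homeomorph.addLeft x).preimage_interior E
    rw [h0] at this
    simpa using this.symm
  have i2 : interior ((fun r : ℝ => x - r) ⁻¹' E) = ∅ := by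
    have := (Homeomorph.subLeft x).preimage_interior E
    rw [h0] at this
    simpa using this.symm
  have i3 : interior ((fun r : ℝ => x + r) ⁻¹' E ∪ (fun r : ℝ => x - r) ⁻¹' E) = ∅ := by
    rw [interior_union_isClosed_of_interior_empty c1 i2, i1]
  have d : Dense (((fun r : ℝ => x + r) ⁻¹' E ∪ (fun r : ℝ => x - r) ⁻¹' E)ᶜ) :=
    interior_eq_empty_iff_dense_compl.1 i3
  obtain ⟨r, hr, hr'⟩ := d.exists_mem_open isOpen_Ioo (nonempty_Ioo.2 hε)
  refine ⟨r, hr'.1, hr'.2, fun h => hr (Or.inl h), fun h => hr (Or.inr h)⟩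

theorem isPreconnected_ball_diff {E : Set ℝ} (hT : IsTotallyDisconnected E) (x r : ℝ) :
    IsPreconnected (ball (x : ℂ) r \ inC E) := by
  rcases le_or_gt r 0 with hr | hr
  · rw [Metric.ball_eq_empty.2 hr]
    simpa using isPreconnected_empty
  have star : ∀ y : ℝ, (y : ℂ) ∈ ball (x : ℂ) r → y ∉ E →
      IsPreconnected {z : ℂ | z ∈ ball (x : ℂ) r ∧ (z.im ≠ 0 ∨ z = y)} := by
    intro y hy _
    have : StarConvex ℝ (y : ℂ) {z : ℂ | z ∈ ball (x : ℂ) r ∧ (z.im ≠ 0 ∨ z = y)} := by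
      intro z hz a b ha hb hab
      refine ⟨(convex_ball (x : ℂ) r) hy hz.1 ha hb hab, ?_⟩
      rcases hz.2 with h | h
      · rcases hb.eq_or_lt with hb0 | hb0
        · right
          have ha1 : a = 1 := by linarith
          rw [← hb0, ha1]
          simp
        · left
          simp only [Complex.add_im, Complex.real_smul, Complex.mul_im, Complex.ofReal_re,
            Complex.ofReal_im]
          simp [hb0.ne', h]
      · right
        rw [h, ← add_smul, hab, one_smul]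
    exact (this.isPathConnected ⟨hy, Or.inr rfl⟩).isConnected.isPreconnected
  have sub : ∀ y : ℝ, y ∉ E →
      {z : ℂ | z ∈ ball (x : ℂ) r ∧ (z.im ≠ 0 ∨ z = y)} ⊆ ball (x : ℂ) r \ inC E := by
    rintro y hy z ⟨h1, h2⟩
    refine ⟨h1, fun h3 => ?_⟩
    rw [inC_iff] at h3
    rcases h2 with h | h
    · exact h h3.1
    · apply hy
      rw [h] at h3
      simpa using h3.2
  have hp : (x : ℂ) + (r / 2 : ℝ) * Complex.I ∈ ball (x : ℂ) r := by
    rw [mem_ball, dist_eq_norm, add_sub_cancel_left, norm_mul, Complex.norm_I, mul_one,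
      Complex.norm_real, Real.norm_of_nonneg (by linarith)]
    linarith
  have hpim : ((x : ℂ) + (r / 2 : ℝ) * Complex.I).im ≠ 0 := by
    simp
    exact hr.ne'
  apply isPreconnected_of_forall ((x : ℂ) + (r / 2 : ℝ) * Complex.I)
  intro z hz
  by_cases him : z.im = 0
  · have hzr : (z.re : ℂ) = z := by apply Complex.ext <;> simp [him]
    have hzE : z.re ∉ E := fun h => hz.2 (inC_iff.2 ⟨him, h⟩)
    refine ⟨_, sub z.re hzE, ⟨hp, Or.inl hpim⟩, ⟨hz.1, Or.inr hzr.symm⟩,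
      star z.re (by rw [hzr]; exact hz.1) hzE⟩
  · have d : Dense Eᶜ := interior_eq_empty_iff_dense_compl.1 (interior_empty hT)
    obtain ⟨y, hy, hy'⟩ := d.exists_mem_open (isOpen_ball (x := x) (ε := r))
      ⟨x, mem_ball_self hr⟩
    refine ⟨_, sub y hy, ⟨hp, Or.inl hpim⟩, ⟨hz.1, Or.inl him⟩, star y ?_ hy⟩
    rw [mem_ball, dist_eq_norm, ← Complex.ofReal_sub, Complex.norm_real]
    simpa [Real.dist_eq] using hy'

theorem mem_closure_compl {E : Set ℝ} (x : ℝ) :
    (x : ℂ) ∈ closure (inC E)ᶜ := by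
  rw [Metric.mem_closure_iff]
  intro ε hε
  refine ⟨(x : ℂ) + (ε / 2 : ℝ) * Complex.I, ?_, ?_⟩
  · intro h
    rw [inC_iff] at h
    simp at h
    linarith [h.1]
  · rw [dist_comm, dist_eq_norm, add_sub_cancel_left, norm_mul, Complex.norm_I, mul_one,
      Complex.norm_real, Real.norm_of_nonneg (by linarith)]
    linarith

section
variable {S : Type*} [TopologicalSpace S]

/-- The neighbourhood of the planar end. -/
def N (E : Set ℝ) (j : OpenPartialHomeomorph ℂ S) (x r : ℝ) : Set S :=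
  j '' (ball (x : ℂ) r \ inC E)

theorem sub_source {E : Set ℝ} {j : OpenPartialHomeomorph ℂ S} (hP : Patch E j) {A : Set ℂ}
    (hA : A ⊆ closedBall 0 1) : A \ inC E ⊆ j.source := by
  rw [hP.source]
  rintro z ⟨h1, h2⟩
  refine ⟨?_, h2⟩
  have := hA h1
  rw [mem_closedBall] at this
  rw [mem_ball]
  linarith

theorem N_preconnected {E : Set ℝ} {j : OpenPartialHomeomorph ℂ S} (hP : Patch E j) {x r : ℝ}
    (h : ball (x : ℂ) r ⊆ closedBall 0 1) : IsPreconnected (N E j x r) :=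
  (isPreconnected_ball_diff hP.totDisc x r).image _
    (j.continuousOn.mono (sub_source hP h))

theorem N_mono {E : Set ℝ} {j : OpenPartialHomeomorph ℂ S} {x r s : ℝ} (h : r ≤ s) :
    N E j x r ⊆ N E j x s :=
  image_mono (sdiff_subset_sdiff_left (ball_subset_ball h))

/-- Small neighbourhoods of the planar end avoid a given compact set. -/
theorem exists_avoid [T2Space S] {E : Set ℝ} {j : OpenPartialHomeomorph ℂ S} (hP : Patch E j)
    {L : Set S} (hL : IsCompact L) {y : ℝ} (hy : y ∈ E) :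
    ∃ ρ, 0 < ρ ∧ ball (y : ℂ) ρ ⊆ closedBall 0 1 ∧ N E j y ρ ⊆ Lᶜ := by
  have hsub : closedBall (0 : ℂ) 1 \ inC E ⊆ j.source := sub_source hP le_rfl
  have h1 : IsCompact (L ∩ j '' (closedBall (0 : ℂ) 1 \ inC E)) := hL.inter_right hP.closed
  have h2 : L ∩ j '' (closedBall (0 : ℂ) 1 \ inC E) ⊆ j.target := by
    rintro s ⟨_, z, hz, rfl⟩
    exact j.map_source (hsub hz)
  have h3 : IsCompact (j.symm '' (L ∩ j '' (closedBall (0 : ℂ) 1 \ inC E))) :=
    h1.image_of_continuousOn (j.continuousOn_symm.mono h2)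
  have h4 : (y : ℂ) ∉ j.symm '' (L ∩ j '' (closedBall (0 : ℂ) 1 \ inC E)) := by
    rintro ⟨s, ⟨_, z, hz, rfl⟩, hs⟩
    rw [j.left_inv (hsub hz)] at hs
    exact hz.2 ⟨y, hy, hs.symm⟩
  obtain ⟨ρ1, hρ1, hb1⟩ := Metric.isOpen_iff.1 h3.isClosed.isOpen_compl (y : ℂ) h4
  have hy1 : |y| < 1 := abs_lt.2 ⟨(hP.sub hy).1, (hP.sub hy).2⟩
  refine ⟨min ρ1 (1 - |y|), lt_min hρ1 (by linarith), ?_, ?_⟩
  · intro z hz
    rw [mem_ball] at hz
    rw [mem_closedBall]
    have := dist_triangle z (y : ℂ) 0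
    have h5 : dist (y : ℂ) 0 = |y| := by rw [dist_zero_right, Complex.norm_real, Real.norm_eq_abs]
    have := min_le_right ρ1 (1 - |y|)
    linarith
  · rintro _ ⟨z, hz, rfl⟩ hzL
    have hz1 : z ∈ closedBall (0 : ℂ) 1 := by
      have hz' := hz.1
      rw [mem_ball] at hz'
      rw [mem_closedBall]
      have := dist_triangle z (y : ℂ) 0
      have h5 : dist (y : ℂ) 0 = |y| := by
        rw [dist_zero_right, Complex.norm_real, Real.norm_eq_abs]
      have := min_le_right ρ1 (1 - |y|)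
      linarith
    apply hb1 (ball_subset_ball (min_le_left _ _) hz.1)
    exact ⟨j z, ⟨hzL, z, ⟨hz1, hz.2⟩, rfl⟩, j.left_inv (hsub ⟨hz1, hz.2⟩)⟩

/-- The planar end at `y`. -/
def pend (E : Set ℝ) (j : OpenPartialHomeomorph ℂ S) (y : ℝ) (L : Set S) : Set S :=
  {s | ∀ᶠ z in 𝓝[(inC E)ᶜ] (y : ℂ), s ∈ connectedComponentIn Lᶜ (j z)}

theorem pend_eq {E : Set ℝ} {j : OpenPartialHomeomorph ℂ S} {y ρ : ℝ} {L C : Set S}
    (hρ : 0 < ρ) (h : ∀ p ∈ N E j y ρ, connectedComponentIn Lᶜ p = C) :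
    pend E j y L = C := by
  have hne : (𝓝[(inC E)ᶜ] (y : ℂ)).NeBot := mem_closure_iff_nhdsWithin_neBot.1
    (mem_closure_compl y)
  have hev : ∀ᶠ z in 𝓝[(inC E)ᶜ] (y : ℂ), connectedComponentIn Lᶜ (j z) = C := by
    have h1 : ∀ᶠ z in 𝓝[(inC E)ᶜ] (y : ℂ), z ∈ (inC E)ᶜ := self_mem_nhdsWithin
    have h2 : ∀ᶠ z in 𝓝[(inC E)ᶜ] (y : ℂ), z ∈ ball (y : ℂ) ρ :=
      mem_nhdsWithin_of_mem_nhds (ball_mem_nhds _ hρ)
    filter_upwards [h1, h2] with z hz1 hz2
    exact h _ ⟨z, ⟨hz2, hz1⟩, rfl⟩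
  ext s
  constructor
  · intro hs
    have hs' : ∀ᶠ z in 𝓝[(inC E)ᶜ] (y : ℂ), s ∈ connectedComponentIn Lᶜ (j z) := hs
    obtain ⟨z, hz1, hz2⟩ := (hs'.and hev).exists
    rw [← hz2]
    exact hz1
  · intro hs
    change ∀ᶠ z in 𝓝[(inC E)ᶜ] (y : ℂ), s ∈ connectedComponentIn Lᶜ (j z)
    filter_upwards [hev] with z hz
    rw [hz]
    exact hs

theorem comp_eq {E : Set ℝ} {j : OpenPartialHomeomorph ℂ S} (hP : Patch E j) {y ρ : ℝ}
    {L : Set S} (hb : ball (y : ℂ) ρ ⊆ closedBall 0 1) (hN : N E j y ρ ⊆ Lᶜ) {p q : S}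
    (hp : p ∈ N E j y ρ) (hq : q ∈ N E j y ρ) :
    connectedComponentIn Lᶜ p = connectedComponentIn Lᶜ q :=
  (connectedComponentIn_eq ((N_preconnected hP hb).subset_connectedComponentIn hq hN hp)).symm

theorem N_nonempty {E : Set ℝ} {j : OpenPartialHomeomorph ℂ S} {y ρ : ℝ} (hρ : 0 < ρ) :
    (N E j y ρ).Nonempty := by
  obtain ⟨z, hz1, hz2⟩ := Metric.mem_closure_iff.1 (mem_closure_compl (E := E) y) ρ hρ
  exact ⟨j z, z, ⟨by rw [mem_ball, dist_comm]; exact hz2, hz1⟩, rfl⟩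

theorem isEnd_pend [T2Space S] {E : Set ℝ} {j : OpenPartialHomeomorph ℂ S} (hP : Patch E j)
    {y : ℝ} (hy : y ∈ E) : IsEnd (pend E j y) := by
  refine ⟨?_, ?_⟩
  · intro K hK
    obtain ⟨ρ, hρ, hb, hN⟩ := exists_avoid hP hK hy
    obtain ⟨p, hp⟩ := N_nonempty (E := E) (j := j) (y := y) hρ
    exact ⟨p, hN hp, pend_eq hρ fun q hq => comp_eq hP hb hN hq hp⟩
  · intro K L _ _ hKL s hs
    have hs' : ∀ᶠ z in 𝓝[(inC E)ᶜ] (y : ℂ), s ∈ connectedComponentIn Lᶜ (j z) := hs
    change ∀ᶠ z in 𝓝[(inC E)ᶜ] (y : ℂ), s ∈ connectedComponentIn Kᶜ (j z)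
    filter_upwards [hs'] with z hz
    exact connectedComponentIn_mono _ (compl_subset_compl.2 hKL) hz

/-- A good circle around a point of `E`. -/
theorem exists_circle [T2Space S] {E : Set ℝ} {j : OpenPartialHomeomorph ℂ S} (hP : Patch E j)
    {x ε : ℝ} (hx : x ∈ E) (hε : 0 < ε) :
    ∃ (r : ℝ) (K : Set S), 0 < r ∧ r < ε ∧ ball (x : ℂ) r ⊆ closedBall 0 1 ∧ IsCompact K ∧
      ∀ p ∈ N E j x r, connectedComponentIn Kᶜ p = N E j x r := by
  have hx1 : |x| < 1 := abs_lt.2 ⟨(hP.sub hx).1, (hP.sub hx).2⟩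
  obtain ⟨r, hr0, hr1, hr2, hr3⟩ := exists_radius hP.compact.isClosed hP.totDisc x
    (min ε (1 - |x|)) (lt_min hε (by linarith))
  have hrε : r < ε := hr1.trans_le (min_le_left _ _)
  have hrx : r < 1 - |x| := hr1.trans_le (min_le_right _ _)
  have hcb : closedBall (x : ℂ) r ⊆ closedBall 0 1 := by
    intro z hz
    rw [mem_closedBall] at hz ⊢
    have := dist_triangle z (x : ℂ) 0
    have h5 : dist (x : ℂ) 0 = |x| := by rw [dist_zero_right, Complex.norm_real, Real.norm_eq_abs]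
    linarith
  have hdis : ∀ z ∈ sphere (x : ℂ) r, z ∉ inC E := by
    intro z hz hzE
    obtain ⟨y, hy, rfl⟩ := hzE
    rw [mem_sphere, dist_eq_norm, ← Complex.ofReal_sub, Complex.norm_real, Real.norm_eq_abs,
      abs_eq hr0.le] at hz
    rcases hz with h | h
    · apply hr2
      have : x + r = y := by linarith
      rwa [this]
    · apply hr3
      have : x - r = y := by linarith
      rwa [this]
  have hsph : sphere (x : ℂ) r ⊆ j.source := by
    intro z hz
    exact sub_source hP hcb ⟨sphere_subset_closedBall hz, hdis z hz⟩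
  have hKc : IsCompact (j '' sphere (x : ℂ) r) :=
    (isCompact_sphere _ _).image_of_continuousOn (j.continuousOn.mono hsph)
  have hbs : ball (x : ℂ) r ⊆ closedBall 0 1 := ball_subset_closedBall.trans hcb
  refine ⟨r, j '' sphere (x : ℂ) r, hr0, hrε, hbs, hKc, ?_⟩
  intro p hp
  have hinE : IsClosed (inC E) := isClosed_inC hP.compact.isClosed
  have hNo : IsOpen (N E j x r) :=
    j.isOpen_image_of_subset_source (isOpen_ball.sdiff hinE) (sub_source hP hbs)
  have hNK : N E j x r ⊆ (j '' sphere (x : ℂ) r)ᶜ := by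
    rintro _ ⟨z, hz, rfl⟩ ⟨w, hw, hwz⟩
    have : w = z := j.injOn (hsph hw) (sub_source hP hbs hz) hwz
    rw [this, mem_sphere] at hw
    have := hz.1
    rw [mem_ball, hw] at this
    exact lt_irrefl _ this
  have hO : IsOpen (j '' (closedBall (x : ℂ) r \ inC E))ᶜ := by
    have heq : (j '' (closedBall (x : ℂ) r \ inC E))ᶜ = (j '' (closedBall (0 : ℂ) 1 \ inC E))ᶜ ∪
        j '' ((ball (0 : ℂ) 2 \ closedBall (x : ℂ) r) \ inC E) := by
      ext s
      constructor
      · intro hs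
        by_cases h : s ∈ j '' (closedBall (0 : ℂ) 1 \ inC E)
        · right
          obtain ⟨z, hz, rfl⟩ := h
          have hzs : z ∈ j.source := sub_source hP le_rfl hz
          rw [hP.source] at hzs
          exact ⟨z, ⟨⟨hzs.1, fun h' => hs ⟨z, ⟨h', hz.2⟩, rfl⟩⟩, hz.2⟩, rfl⟩
        · left
          exact h
      · rintro (h | ⟨z, hz, rfl⟩) ⟨w, hw, hws⟩
        · exact h ⟨w, ⟨hcb hw.1, hw.2⟩, hws⟩
        · have hzs : z ∈ j.source := by
            rw [hP.source]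
            exact ⟨hz.1.1, hz.2⟩
          have : w = z := j.injOn (sub_source hP hcb hw) hzs hws
          exact hz.1.2 (this ▸ hw.1)
    rw [heq]
    refine hP.closed.isOpen_compl.union (j.isOpen_image_of_subset_source
      ((isOpen_ball.sdiff isClosed_closedBall).sdiff hinE) ?_)
    rw [hP.source]
    exact fun z hz => ⟨hz.1.1, hz.2⟩
  apply Subset.antisymm
  · apply IsPreconnected.subset_left_of_subset_union hNo hO ?_ ?_ ⟨p, ?_, hp⟩
      isPreconnected_connectedComponentIn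
    · rw [Set.disjoint_left]
      rintro _ ⟨z, hz, rfl⟩ h
      exact h ⟨z, ⟨ball_subset_closedBall hz.1, hz.2⟩, rfl⟩
    · intro s hs
      have hsK := connectedComponentIn_subset _ _ hs
      by_cases h : s ∈ j '' (closedBall (x : ℂ) r \ inC E)
      · left
        obtain ⟨z, hz, rfl⟩ := h
        refine ⟨z, ⟨?_, hz.2⟩, rfl⟩
        have h1 := hz.1
        rw [mem_closedBall] at h1
        rw [mem_ball]
        refine lt_of_le_of_ne h1 fun h2 => hsK ⟨z, h2, rfl⟩
      · right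
        exact h
    · exact mem_connectedComponentIn (hNK hp)
  · exact (N_preconnected hP hbs).subset_connectedComponentIn hp hNK

end

theorem goalA1.{v} : GoalA1.{v} := by
  intro S _ _ E j hP f hf x hx ε hε
  obtain ⟨r, K, hr0, hrε, hb, hK, hcomp⟩ := exists_circle hP hx hε
  have hKe : pend E j x K = N E j x r := pend_eq hr0 hcomp
  have hL : IsCompact (f ⁻¹' K) := f.isCompact_preimage.2 hK
  have h1 := hf _ (isEnd_pend hP hx) K hK
  rw [hKe] at h1
  obtain ⟨ρ, hρ, hb', hN⟩ := exists_avoid hP hL hx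
  refine ⟨ρ, hρ, fun z hz => ?_⟩
  have hz' : j z ∈ N E j x ρ := ⟨z, hz, rfl⟩
  have h2 : pend E j x (f ⁻¹' K) = connectedComponentIn (f ⁻¹' K)ᶜ (j z) :=
    pend_eq hρ fun q hq => comp_eq hP hb' hN hq hz'
  have h3 : f (j z) ∈ f '' pend E j x (f ⁻¹' K) := by
    rw [h2]
    exact ⟨j z, mem_connectedComponentIn (hN hz'), rfl⟩
  rw [h1] at h3
  exact N_mono hrε.le h3

theorem goalA2.{v} : GoalA2.{v} := by
  intro S _ _ E j hP H hH1 hH0 x hx ε hε
  obtain ⟨r, K, hr0, hrε, hb, hK, hcomp⟩ := exists_circle hP hx hε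
  have hL : IsCompact (Prod.snd '' (H ⁻¹' (univ ×ˢ K))) :=
    (H.isCompact_preimage.2 (isCompact_univ.prod hK)).image continuous_snd
  obtain ⟨ρ, hρ, hb', hN⟩ := exists_avoid hP hL hx
  refine ⟨min ρ r, lt_min hρ hr0, fun t z hz => ?_⟩
  have hzr : j z ∈ N E j x r := N_mono (min_le_right _ _) ⟨z, hz, rfl⟩
  have hzm : j z ∈ N E j x (min ρ r) := ⟨z, hz, rfl⟩
  have hpre : IsPreconnected ((fun p : unitInterval × S => (H p).2) ''
      (univ ×ˢ N E j x (min ρ r))) := by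
    apply IsPreconnected.image
    · exact isPreconnected_univ.prod (N_preconnected hP
        ((ball_subset_ball (min_le_left _ _)).trans hb'))
    · exact (continuous_snd.comp H.continuous).continuousOn
  have hsub : (fun p : unitInterval × S => (H p).2) ''
      (univ ×ˢ N E j x (min ρ r)) ⊆ Kᶜ := by
    rintro _ ⟨⟨u, s⟩, ⟨_, hs⟩, rfl⟩ hc
    exact hN (N_mono (min_le_left _ _) hs) ⟨(u, s), ⟨mem_univ _, hc⟩, rfl⟩
  have h1 : j z ∈ (fun p : unitInterval × S => (H p).2) ''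
      (univ ×ˢ N E j x (min ρ r)) := ⟨(0, j z), ⟨mem_univ _, hzm⟩, hH0 _⟩
  have h2 := hpre.subset_connectedComponentIn h1 hsub
  rw [hcomp _ hzr] at h2
  exact N_mono hrε.le (h2 ⟨(t, j z), ⟨mem_univ _, hzm⟩, rfl⟩)

theorem goalA3.{v} : GoalA3.{v} := by
  intro S _ f g hf hg
  constructor
  · intro ε hε K hK
    have h1 := hf ε hε K hK
    have h2 := hg ε hε (f ⁻¹' K) (f.isCompact_preimage.2 hK)
    have h3 : ((f * g : S ≃ₜ S) ⁻¹' K) = g ⁻¹' (f ⁻¹' K) := rfl
    have h4 : ((f * g : S ≃ₜ S) : S → S) = f ∘ g := rfl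
    rw [h3, h4, image_comp, h2, h1]
  · intro ε hε K hK
    have h1 := hf ε hε (f '' K) (f.isCompact_image.2 hK)
    rw [f.preimage_image] at h1
    have h3 : ((f⁻¹ : S ≃ₜ S) ⁻¹' K) = f '' K := by
      change f.symm ⁻¹' K = f '' K
      exact (f.image_eq_preimage_symm K).symm
    rw [h3, ← h1]
    change f.symm '' (f '' ε K) = ε K
    rw [← image_comp]
    simp

end Pool.Agent.Helper89.BigA
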