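import Pool.Agent.Helper84.Kos.Goals2

set_option autoImplicit false

/-!
# MP_315210_al, packet GV: a polynomial with values in a vector space
-/

namespace Pool.Agent.Helper89.KosGV

open Pool.Agent.Helper84.Kos

theorem stmtGV : StmtGV := by
  intro V _ _ S N v h i hi
  by_contra hcon
  have hne : S.mkQ (v i) ≠ 0 := by
    intro h0
    apply hcon
    rwa [Submodule.mkQ_apply, Submodule.Quotient.mk_eq_zero] at h0
  obtain ⟨ψ, hψ⟩ : ∃ ψ : Module.Dual ℚ (V ⧸ S), ψ (S.mkQ (v i)) ≠ 0 := by
    by_contra hc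
    push Not at hc
    exact hne ((Module.forall_dual_apply_eq_zero_iff ℚ _).1 hc)
  set p : Polynomial ℚ := ∑ j ∈ Finset.range N, Polynomial.C (ψ (S.mkQ (v j))) * Polynomial.X ^ j
    with hp
  have heval : ∀ m : ℕ, p.eval (m : ℚ) = 0 := by
    intro m
    have h1 : S.mkQ (∑ j ∈ Finset.range N, (m : ℚ) ^ j • v j) = 0 := by
      rw [Submodule.mkQ_apply, Submodule.Quotient.mk_eq_zero]
      exact h m
    have h2 : ψ (S.mkQ (∑ j ∈ Finset.range N, (m : ℚ) ^ j • v j)) = 0 := by rw [h1, map_zero]
    rw [hp, Polynomial.eval_finsetSum]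
    rw [map_sum, map_sum] at h2
    rw [← h2]
    apply Finset.sum_congr rfl
    intro j _
    rw [map_smul, map_smul, smul_eq_mul, Polynomial.eval_mul, Polynomial.eval_C,
      Polynomial.eval_pow, Polynomial.eval_X, mul_comm]
  have hp0 : p = 0 := by
    apply Polynomial.eq_zero_of_infinite_isRoot
    apply Set.infinite_of_injective_forall_mem (f := fun m : ℕ => (m : ℚ)) Nat.cast_injective
    intro m
    exact heval m
  have hcoeff : p.coeff i = ψ (S.mkQ (v i)) := by
    rw [hp, Polynomial.finsetSum_coeff, Finset.sum_eq_single i]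
    · rw [Polynomial.coeff_C_mul, Polynomial.coeff_X_pow_self, mul_one]
    · intro j _ hj
      rw [Polynomial.coeff_C_mul, Polynomial.coeff_X_pow, if_neg (Ne.symm hj), mul_zero]
    · intro hcon2
      exact absurd (Finset.mem_range.2 hi) hcon2
  rw [hp0, Polynomial.coeff_zero] at hcoeff
  exact hψ hcoeff.symm

end Pool.Agent.Helper89.KosGV
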