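import Pool.Agent.Helper89.Pade

set_option autoImplicit false

namespace Pool.Agent.Helper89.ES

open Finset

theorem choose_le_two_pow (n k : ℕ) : n.choose k ≤ 2 ^ n := Nat.choose_le_two_pow n k

theorem choose_le_pow' (n k : ℕ) : n.choose k ≤ n ^ k := Nat.choose_le_pow n k

theorem abs_Q_le (a j x h : ℕ) (hx : (a + j) * h ≤ x) :
    |Q a j (x : ℤ) (h : ℤ)| ≤ (((j + 1) * 4 ^ j * (x + h) ^ j : ℕ) : ℤ) := by
  unfold Q
  refine (Finset.abs_sum_le_sum_abs _ _).trans ?_
  have hterm : ∀ i ∈ range (j + 1), |(-1 : ℤ) ^ (j - i) * ((2 * j - i).choose j : ℤ)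
      * ((a + j).choose i : ℤ) * (h : ℤ) ^ i * ((x : ℤ) + h) ^ (j - i)|
      ≤ ((4 ^ j * (x + h) ^ j : ℕ) : ℤ) := by
    intro i hi
    have hij : i ≤ j := by
      have := mem_range.mp hi
      omega
    have h1 : |(-1 : ℤ) ^ (j - i) * ((2 * j - i).choose j : ℤ)
      * ((a + j).choose i : ℤ) * (h : ℤ) ^ i * ((x : ℤ) + h) ^ (j - i)|
      = (((2 * j - i).choose j * ((a + j).choose i * h ^ i) * (x + h) ^ (j - i) : ℕ) : ℤ) := by
      rw [abs_mul, abs_mul, abs_mul, abs_mul, abs_pow, abs_neg, abs_one, one_pow, one_mul,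
        Nat.abs_cast, Nat.abs_cast, abs_of_nonneg (by positivity : (0 : ℤ) ≤ (h : ℤ) ^ i),
        abs_of_nonneg (by positivity : (0 : ℤ) ≤ ((x : ℤ) + h) ^ (j - i))]
      push_cast
      ring
    rw [h1]
    norm_cast
    have h2 : (2 * j - i).choose j ≤ 4 ^ j := by
      calc (2 * j - i).choose j ≤ 2 ^ (2 * j - i) := choose_le_two_pow _ _
        _ ≤ 2 ^ (2 * j) := Nat.pow_le_pow_right (by norm_num) (by omega)
        _ = 4 ^ j := by rw [pow_mul]; norm_num
    have h3 : (a + j).choose i * h ^ i ≤ (x + h) ^ i := by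
      calc (a + j).choose i * h ^ i ≤ (a + j) ^ i * h ^ i := Nat.mul_le_mul_right _ (choose_le_pow' _ _)
        _ = ((a + j) * h) ^ i := by rw [mul_pow]
        _ ≤ (x + h) ^ i := Nat.pow_le_pow_left (by omega) _
    calc (2 * j - i).choose j * ((a + j).choose i * h ^ i) * (x + h) ^ (j - i)
        ≤ 4 ^ j * (x + h) ^ i * (x + h) ^ (j - i) :=
          Nat.mul_le_mul_right _ (Nat.mul_le_mul h2 h3)
      _ = 4 ^ j * (x + h) ^ j := by
          rw [mul_assoc, ← pow_add, show i + (j - i) = j by omega]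
  refine (Finset.sum_le_sum hterm).trans ?_
  rw [Finset.sum_const, card_range, nsmul_eq_mul]
  push_cast
  apply le_of_eq
  ring

theorem abs_P_le (a j x h : ℕ) (hx : (a + j) * h ≤ x) :
    |P a j (x : ℤ) (h : ℤ)| ≤ (((j + 1) * 4 ^ j * (x + h) ^ j : ℕ) : ℤ) := by
  unfold P
  refine (Finset.abs_sum_le_sum_abs _ _).trans ?_
  have hterm : ∀ i ∈ range (j + 1), |(-1 : ℤ) ^ j * ((2 * j - i).choose j : ℤ)
      * ((a + j).choose i : ℤ) * (h : ℤ) ^ i * (x : ℤ) ^ (j - i)|
      ≤ ((4 ^ j * (x + h) ^ j : ℕ) : ℤ) := by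
    intro i hi
    have hij : i ≤ j := by
      have := mem_range.mp hi
      omega
    have h1 : |(-1 : ℤ) ^ j * ((2 * j - i).choose j : ℤ)
      * ((a + j).choose i : ℤ) * (h : ℤ) ^ i * (x : ℤ) ^ (j - i)|
      = (((2 * j - i).choose j * ((a + j).choose i * h ^ i) * x ^ (j - i) : ℕ) : ℤ) := by
      rw [abs_mul, abs_mul, abs_mul, abs_mul, abs_pow, abs_neg, abs_one, one_pow, one_mul,
        Nat.abs_cast, Nat.abs_cast, abs_of_nonneg (by positivity : (0 : ℤ) ≤ (h : ℤ) ^ i),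
        abs_of_nonneg (by positivity : (0 : ℤ) ≤ (x : ℤ) ^ (j - i))]
      push_cast
      ring
    rw [h1]
    norm_cast
    have h2 : (2 * j - i).choose j ≤ 4 ^ j := by
      calc (2 * j - i).choose j ≤ 2 ^ (2 * j - i) := choose_le_two_pow _ _
        _ ≤ 2 ^ (2 * j) := Nat.pow_le_pow_right (by norm_num) (by omega)
        _ = 4 ^ j := by rw [pow_mul]; norm_num
    have h3 : (a + j).choose i * h ^ i ≤ (x + h) ^ i := by
      calc (a + j).choose i * h ^ i ≤ (a + j) ^ i * h ^ i := Nat.mul_le_mul_right _ (choose_le_pow' _ _)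
        _ = ((a + j) * h) ^ i := by rw [mul_pow]
        _ ≤ (x + h) ^ i := Nat.pow_le_pow_left (by omega) _
    calc (2 * j - i).choose j * ((a + j).choose i * h ^ i) * x ^ (j - i)
        ≤ 4 ^ j * (x + h) ^ i * (x + h) ^ (j - i) :=
          Nat.mul_le_mul (Nat.mul_le_mul h2 h3) (Nat.pow_le_pow_left (by omega) _)
      _ = 4 ^ j * (x + h) ^ j := by
          rw [mul_assoc, ← pow_add, show i + (j - i) = j by omega]
  refine (Finset.sum_le_sum hterm).trans ?_
  rw [Finset.sum_const, card_range, nsmul_eq_mul]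
  push_cast
  apply le_of_eq
  ring

theorem T_eq_cast (a j x h : ℕ) : T a j (x : ℤ) (h : ℤ) =
    ((∑ m ∈ Ico (2 * j + 1) (a + j + 1), (a + j).choose m * (m - j - 1).choose j
    * h ^ m * x ^ (a + j - m) : ℕ) : ℤ) := by
  unfold T
  push_cast
  rfl

theorem T_lower (a j x h : ℕ) (hja : j + 1 ≤ a) (hh : 0 < h) :
    ((x ^ (a - j - 1) : ℕ) : ℤ) ≤ T a j (x : ℤ) (h : ℤ) := by
  rw [T_eq_cast]
  norm_cast
  have hmem : 2 * j + 1 ∈ Ico (2 * j + 1) (a + j + 1) := mem_Ico.mpr ⟨le_rfl, by omega⟩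
  refine le_trans ?_ (Finset.single_le_sum (f := fun m => (a + j).choose m * (m - j - 1).choose j
    * h ^ m * x ^ (a + j - m)) (fun i _ => Nat.zero_le _) hmem)
  have h1 : 2 * j + 1 - j - 1 = j := by omega
  have h2 : a + j - (2 * j + 1) = a - j - 1 := by omega
  simp only [h1, h2, Nat.choose_self, mul_one]
  have h3 : 0 < (a + j).choose (2 * j + 1) := Nat.choose_pos (by omega)
  have h4 : 0 < h ^ (2 * j + 1) := by positivity
  exact Nat.le_mul_of_pos_left _ (Nat.mul_pos h3 h4)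

theorem T_upper (a j x h : ℕ) (hja : j + 1 ≤ a) (hx : 2 * (a + j) * h ≤ x) :
    T a j (x : ℤ) (h : ℤ) ≤
      (((a + j) * ((2 * (a + j) * h) ^ (2 * j + 1) * x ^ (a - j - 1)) : ℕ) : ℤ) := by
  rw [T_eq_cast]
  norm_cast
  have hterm : ∀ m ∈ Ico (2 * j + 1) (a + j + 1), (a + j).choose m * (m - j - 1).choose j
      * h ^ m * x ^ (a + j - m) ≤ (2 * (a + j) * h) ^ (2 * j + 1) * x ^ (a - j - 1) := by
    intro m hm
    have hm' := mem_Ico.mp hm
    obtain ⟨i, rfl⟩ : ∃ i, m = 2 * j + 1 + i := ⟨m - (2 * j + 1), by omega⟩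
    calc (a + j).choose (2 * j + 1 + i) * (2 * j + 1 + i - j - 1).choose j
          * h ^ (2 * j + 1 + i) * x ^ (a + j - (2 * j + 1 + i))
        ≤ (a + j) ^ (2 * j + 1 + i) * 2 ^ (2 * j + 1 + i)
          * h ^ (2 * j + 1 + i) * x ^ (a + j - (2 * j + 1 + i)) := by
          apply Nat.mul_le_mul_right
          apply Nat.mul_le_mul_right
          apply Nat.mul_le_mul (choose_le_pow' _ _)
          exact (choose_le_two_pow _ _).trans (Nat.pow_le_pow_right (by norm_num) (by omega))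
      _ = (2 * (a + j) * h) ^ (2 * j + 1) * ((2 * (a + j) * h) ^ i
            * x ^ (a + j - (2 * j + 1 + i))) := by
          rw [← mul_pow, ← mul_pow, ← mul_assoc, ← pow_add]
          ring
      _ ≤ (2 * (a + j) * h) ^ (2 * j + 1) * (x ^ i * x ^ (a + j - (2 * j + 1 + i))) := by
          apply Nat.mul_le_mul_left
          apply Nat.mul_le_mul_right
          exact Nat.pow_le_pow_left hx _
      _ = (2 * (a + j) * h) ^ (2 * j + 1) * x ^ (a - j - 1) := by
          rw [← pow_add]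
          congr 2
          omega
  refine (Finset.sum_le_sum hterm).trans ?_
  rw [Finset.sum_const, Nat.card_Ico, smul_eq_mul]
  apply Nat.mul_le_mul_right
  omega

/-- The arithmetic core: two such coincidences are impossible. -/
theorem core (n x h a j m m' k1 k2 : ℕ) (e1 : m * x ^ a = n + k1)
    (e2 : m' * (x + h) ^ a = n + k2) (hja : j + 1 ≤ a) (hh : 0 < h)
    (hm : 0 < m) (hm' : 0 < m') (hx : 2 * (a + j) * h ≤ x)
    (hup : 2 * (m * m' * ((a + j) * ((2 * (a + j) * h) ^ (2 * j + 1) * x ^ (a - j - 1)))) < n)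
    (hlow : (m * k2 + m' * k1) * ((j + 1) * 4 ^ j * (x + h) ^ j) < x ^ (a - j - 1)) : False := by
  have hx' : (a + j) * h ≤ x := by nlinarith
  have hQ := abs_Q_le a j x h hx'
  have hP := abs_P_le a j x h hx'
  have hTl := T_lower a j x h hja hh
  have hTu := T_upper a j x h hja hx
  have hid := pade a j (by omega) (x : ℤ) (h : ℤ)
  set q := Q a j (x : ℤ) (h : ℤ) with hq
  set p := P a j (x : ℤ) (h : ℤ) with hp
  set τ := T a j (x : ℤ) (h : ℤ) with hτ
  set U : ℕ := (j + 1) * 4 ^ j * (x + h) ^ j with hU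
  set W : ℕ := x ^ (a - j - 1) with hW
  set V : ℕ := (a + j) * ((2 * (a + j) * h) ^ (2 * j + 1) * W) with hV
  have e1' : (m : ℤ) * (x : ℤ) ^ a = n + k1 := by exact_mod_cast e1
  have e2' : (m' : ℤ) * ((x : ℤ) + h) ^ a = n + k2 := by exact_mod_cast e2
  -- the identity
  have hmain : (n : ℤ) * (m * q - m' * p) = m * m' * τ - (m * k2 * q - m' * k1 * p) := by
    have : (m : ℤ) * (m' * ((x : ℤ) + h) ^ a) * q - m' * (m * (x : ℤ) ^ a) * p = m * m' * τ := by
      rw [← hid]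
      ring
    rw [e1', e2'] at this
    linear_combination this
  have hq' := abs_le.mp hQ
  have hp' := abs_le.mp hP
  have hup' : 2 * ((m : ℤ) * m' * V) < n := by exact_mod_cast hup
  have hlow' : ((m : ℤ) * k2 + m' * k1) * U < W := by exact_mod_cast hlow
  have hk : |(m : ℤ) * k2 * q - m' * k1 * p| ≤ ((m : ℤ) * k2 + m' * k1) * U := by
    calc |(m : ℤ) * k2 * q - m' * k1 * p| ≤ |(m : ℤ) * k2 * q| + |(m' : ℤ) * k1 * p| := abs_sub _ _
      _ = (m : ℤ) * k2 * |q| + m' * k1 * |p| := by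
          rw [abs_mul, abs_mul ((m' : ℤ) * k1), abs_of_nonneg (by positivity : (0 : ℤ) ≤ (m : ℤ) * k2),
            abs_of_nonneg (by positivity : (0 : ℤ) ≤ (m' : ℤ) * k1)]
      _ ≤ (m : ℤ) * k2 * U + m' * k1 * U := by
          apply add_le_add
          · exact mul_le_mul_of_nonneg_left hQ (by positivity)
          · exact mul_le_mul_of_nonneg_left hP (by positivity)
      _ = ((m : ℤ) * k2 + m' * k1) * U := by ring
  have hk' := abs_le.mp hk
  have hmm : (1 : ℤ) ≤ (m : ℤ) * m' := by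
    have : 1 ≤ m * m' := Nat.mul_pos hm hm'
    exact_mod_cast this
  have hWτ : (W : ℤ) ≤ (m : ℤ) * m' * τ := by
    have h0 : (0 : ℤ) ≤ W := by positivity
    have h00 : (0 : ℤ) ≤ τ := le_trans h0 hTl
    calc (W : ℤ) ≤ τ := hTl
      _ = 1 * τ := (one_mul _).symm
      _ ≤ (m : ℤ) * m' * τ := mul_le_mul_of_nonneg_right hmm h00
  have hτV : (m : ℤ) * m' * τ ≤ (m : ℤ) * m' * V :=
    mul_le_mul_of_nonneg_left hTu (by positivity)
  have hpos : (0 : ℤ) < n * (m * q - m' * p) := by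
    rw [hmain]
    linarith [hk'.2]
  have hlt : (n : ℤ) * (m * q - m' * p) < n * 1 := by
    rw [hmain]
    linarith [hk'.1]
  have hn : (0 : ℤ) < n := by
    by_contra h0
    have h00 : (n : ℤ) = 0 := by omega
    rw [h00] at hpos
    simp at hpos
  have h1 : (0 : ℤ) < m * q - m' * p := (mul_pos_iff_of_pos_left hn).mp hpos
  have h2 : (m : ℤ) * q - m' * p < 1 := lt_of_mul_lt_mul_left hlt hn.le
  omega

end Pool.Agent.Helper89.ES
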