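import Pool.Agent.Helper89.Smooth

set_option autoImplicit false

namespace Pool.Agent.Helper89.ES

open Finset

/-- Chebyshev-type lower bound for the number of primes up to `2^t`. -/
theorem prime_count (t : ℕ) (ht : 1 ≤ t) : 2 ^ t ≤ t * ((Nat.primesLE (2 ^ t)).card + 2) := by
  have h1 := Chebyshev.two_pow_le_mul_lcmUpto (2 ^ t)
  have h2 : Nat.lcmUpto (2 ^ t) ≤ (2 ^ t) ^ (Nat.primesLE (2 ^ t)).card := by
    rw [Nat.lcmUpto_eq_prod_pow_log]
    apply Finset.prod_le_pow_card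
    intro p _
    exact Nat.pow_log_le_self p (by positivity)
  have h3 : 2 ^ t + 1 ≤ (2 ^ t) ^ 2 := by
    have : 2 ≤ 2 ^ t := by
      calc 2 = 2 ^ 1 := by norm_num
        _ ≤ 2 ^ t := Nat.pow_le_pow_right (by norm_num) ht
    nlinarith
  have h4 : 2 ^ (2 ^ t) ≤ 2 ^ (t * ((Nat.primesLE (2 ^ t)).card + 2)) := by
    calc 2 ^ (2 ^ t) ≤ (2 ^ t + 1) * Nat.lcmUpto (2 ^ t) := h1
      _ ≤ (2 ^ t) ^ 2 * (2 ^ t) ^ (Nat.primesLE (2 ^ t)).card := Nat.mul_le_mul h3 h2
      _ = 2 ^ (t * ((Nat.primesLE (2 ^ t)).card + 2)) := by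
        rw [← pow_add, ← pow_mul, add_comm 2]
  exact (Nat.pow_le_pow_iff_right (by norm_num)).mp h4

/-- The number of prime divisors of `n` in a set of primes. -/
theorem card_dvd_le (n L : ℕ) (hn : 0 < n) (hL : n < 2 ^ L) (A : Finset ℕ) (hA : ∀ p ∈ A, p.Prime)
    (hd : ∀ p ∈ A, p ∣ n) : A.card ≤ L := by
  have h1 : ∏ p ∈ A, p ∣ n := Finset.prod_primes_dvd n (fun p hp => (hA p hp).prime) hd
  have h2 : 2 ^ A.card ≤ ∏ p ∈ A, p := Finset.pow_card_le_prod A _ 2 (fun p hp => (hA p hp).two_le)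
  have h3 := Nat.le_of_dvd hn h1
  have h4 : 2 ^ A.card < 2 ^ L := by omega
  exact le_of_lt ((Nat.pow_lt_pow_iff_right (by norm_num)).mp h4)

/-- Bound for the number of bad primes. -/
theorem bad_bound (n t L b : ℕ) (w : ℕ → ℕ) (hn : 0 < n) (hL : n < 2 ^ L)
    (hY : 2 ^ t ≤ n) (hw : ∀ r, 1 ≤ w r ∧ w r ≤ 2 ^ t)
    (hkey : n ^ ((Nat.primesLE (2 ^ t)).filter (fun p => ¬ p ∣ n)).card
        ≤ (∏ r ∈ Nat.primesLE (2 ^ t), r ^ (n + w r).factorization r) * (2 ^ t).factorial) :
    b * ((Nat.primesLE (2 ^ t)).filter (fun r => r ^ (n + w r).factorization r * 2 ^ b < n)).card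
      ≤ (t + 1) * 2 ^ t + L * L := by
  set P := Nat.primesLE (2 ^ t) with hP
  set S := P.filter (fun p => ¬ p ∣ n) with hS
  set D := P.filter (fun p => p ∣ n) with hD
  set B := P.filter (fun r => r ^ (n + w r).factorization r * 2 ^ b < n) with hB
  set G := P.filter (fun r => ¬ r ^ (n + w r).factorization r * 2 ^ b < n) with hG
  have hcard : P.card = D.card + S.card := (Finset.card_filter_add_card_filter_not _).symm
  have hcard2 : P.card = B.card + G.card := (Finset.card_filter_add_card_filter_not _).symm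
  have hPc : P.card ≤ 2 ^ t := by
    have h0 : P ⊆ Finset.Icc 1 (2 ^ t) := by
      intro p hp
      have := Nat.mem_primesLE.mp hp
      exact Finset.mem_Icc.mpr ⟨this.2.pos, this.1⟩
    have := Finset.card_le_card h0
    simpa using this
  have hDc : D.card ≤ L := by
    apply card_dvd_le n L hn hL
    · intro p hp
      exact (Nat.mem_primesLE.mp (mem_filter.mp hp).1).2
    · intro p hp
      exact (mem_filter.mp hp).2
  have hval : ∀ r ∈ P, r ^ (n + w r).factorization r ≤ 2 * n := by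
    intro r _
    have h1 : r ^ (n + w r).factorization r ≤ n + w r :=
      Nat.le_of_dvd (by omega) (Nat.ordProj_dvd _ _)
    have := (hw r).2
    omega
  have hprod : (∏ r ∈ P, r ^ (n + w r).factorization r) * (2 ^ b) ^ B.card ≤ (2 * n) ^ P.card := by
    rw [← Finset.prod_filter_mul_prod_filter_not P
      (fun r => r ^ (n + w r).factorization r * 2 ^ b < n)]
    have hB1 : (∏ r ∈ B, r ^ (n + w r).factorization r) * (2 ^ b) ^ B.card ≤ (2 * n) ^ B.card := by
      rw [← Finset.prod_const, ← Finset.prod_mul_distrib]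
      apply Finset.prod_le_pow_card
      intro r hr
      have := (mem_filter.mp hr).2
      omega
    have hG1 : (∏ r ∈ G, r ^ (n + w r).factorization r) ≤ (2 * n) ^ G.card := by
      apply Finset.prod_le_pow_card
      intro r hr
      exact hval r (mem_filter.mp hr).1
    calc (∏ r ∈ B, r ^ (n + w r).factorization r) * (∏ r ∈ G, r ^ (n + w r).factorization r)
          * (2 ^ b) ^ B.card
        = ((∏ r ∈ B, r ^ (n + w r).factorization r) * (2 ^ b) ^ B.card)
            * (∏ r ∈ G, r ^ (n + w r).factorization r) := by ring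
      _ ≤ (2 * n) ^ B.card * (2 * n) ^ G.card := Nat.mul_le_mul hB1 hG1
      _ = (2 * n) ^ P.card := by rw [hcard2, pow_add]
  have hfact : (2 ^ t).factorial ≤ 2 ^ (t * 2 ^ t) := by
    calc (2 ^ t).factorial ≤ (2 ^ t) ^ (2 ^ t) := Nat.factorial_le_pow _
      _ = 2 ^ (t * 2 ^ t) := by rw [← pow_mul]
  have hmain : n ^ S.card * (2 ^ b) ^ B.card ≤ n ^ S.card * 2 ^ ((t + 1) * 2 ^ t + L * L) := by
    calc n ^ S.card * (2 ^ b) ^ B.card
        ≤ ((∏ r ∈ P, r ^ (n + w r).factorization r) * (2 ^ t).factorial) * (2 ^ b) ^ B.card :=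
          Nat.mul_le_mul_right _ hkey
      _ = ((∏ r ∈ P, r ^ (n + w r).factorization r) * (2 ^ b) ^ B.card) * (2 ^ t).factorial := by
          ring
      _ ≤ (2 * n) ^ P.card * 2 ^ (t * 2 ^ t) := Nat.mul_le_mul hprod hfact
      _ = 2 ^ P.card * (n ^ D.card * n ^ S.card) * 2 ^ (t * 2 ^ t) := by
          rw [mul_pow, ← pow_add, ← hcard]
      _ ≤ 2 ^ (2 ^ t) * ((2 ^ L) ^ L * n ^ S.card) * 2 ^ (t * 2 ^ t) := by
          apply Nat.mul_le_mul_right
          apply Nat.mul_le_mul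
          · exact Nat.pow_le_pow_right (by norm_num) hPc
          · apply Nat.mul_le_mul_right
            calc n ^ D.card ≤ (2 ^ L) ^ D.card := Nat.pow_le_pow_left hL.le _
              _ ≤ (2 ^ L) ^ L := Nat.pow_le_pow_right (by positivity) hDc
      _ = n ^ S.card * 2 ^ ((t + 1) * 2 ^ t + L * L) := by
          rw [← pow_mul 2 L L, add_mul, one_mul, pow_add, pow_add]
          ring
  have h5 : (2 ^ b) ^ B.card ≤ 2 ^ ((t + 1) * 2 ^ t + L * L) :=
    Nat.le_of_mul_le_mul_left hmain (by positivity)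
  rw [← pow_mul] at h5
  exact (Nat.pow_le_pow_iff_right (by norm_num)).mp h5

end Pool.Agent.Helper89.ES
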