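import Pool.Agent.Helper89.Count
import Pool.Agent.Helper89.Core

set_option autoImplicit false

namespace Pool.Agent.Helper89.ES

open Finset

theorem pow8_le (s : ℕ) (hs : 64 ≤ s) : s ^ 8 ≤ 2 ^ s := by
  induction s, hs using Nat.le_induction with
  | base => norm_num
  | succ k hk ih =>
    have h1 : (k + 1) ^ 8 ≤ 2 * k ^ 8 := by
      obtain ⟨c, rfl⟩ : ∃ c, k = 64 + c := ⟨k - 64, by omega⟩
      ring_nf
      nlinarith [Nat.zero_le c, Nat.zero_le (c^2), Nat.zero_le (c^3), Nat.zero_le (c^4),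
        Nat.zero_le (c^5), Nat.zero_le (c^6), Nat.zero_le (c^7), Nat.zero_le (c^8)]
    calc (k + 1) ^ 8 ≤ 2 * k ^ 8 := h1
      _ ≤ 2 * 2 ^ k := Nat.mul_le_mul_left _ ih
      _ = 2 ^ (k + 1) := by rw [pow_succ]; ring

theorem L_le (s : ℕ) (hs : 64 ≤ s) : 8 * (16384 * (s + 1) ^ 2) ≤ s ^ 5 := by
  obtain ⟨c, rfl⟩ : ∃ c, s = 64 + c := ⟨s - 64, by omega⟩
  ring_nf
  nlinarith [Nat.zero_le c, Nat.zero_le (c^2), Nat.zero_le (c^3), Nat.zero_le (c^4),
        Nat.zero_le (c^5)]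

/-- The numerical inequality behind the pigeonhole step. -/
theorem numeric (s E L p q : ℕ) (hs : 64 ≤ s) (hE : s ^ 8 ≤ E) (hL : 8 * L ≤ s ^ 5)
    (hp : E ^ 16 ≤ 16 * s * (p + 2)) (hq : 1024 * s ^ 2 * q ≤ (16 * s + 1) * E ^ 16 + L * L) :
    q + E ^ 8 + (L + 2) * (E ^ 15 + 1) < p := by
  by_contra hcon
  push Not at hcon
  have hs1 : 1 ≤ s := by omega
  have h64 : 64 ^ 2 ≤ s ^ 2 := Nat.pow_le_pow_left hs 2
  have hs5 : s ^ 5 ≤ s ^ 8 := Nat.pow_le_pow_right hs1 (by norm_num)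
  have hE1 : 1 ≤ E := le_trans (Nat.one_le_pow _ _ hs1) hE
  have hLE : L ≤ E := by omega
  have hE15 : 1 ≤ E ^ 15 := Nat.one_le_pow _ _ hE1
  have hE8 : E ^ 8 ≤ E ^ 15 := Nat.pow_le_pow_right hE1 (by norm_num)
  have hE2 : E * E ≤ E ^ 15 := by
    calc E * E = E ^ 2 := by ring
      _ ≤ E ^ 15 := Nat.pow_le_pow_right hE1 (by norm_num)
  have hLL : L * L ≤ E ^ 15 := (Nat.mul_le_mul hLE hLE).trans hE2
  have hs5b : 32768 ≤ s ^ 5 := by
    calc 32768 ≤ 64 ^ 5 := by norm_num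
      _ ≤ s ^ 5 := Nat.pow_le_pow_left hs 5
  -- multiply everything by 1024 s^2
  have h1 : 64 * s * E ^ 16 ≤ 1024 * s ^ 2 * (p + 2) := by
    calc 64 * s * E ^ 16 ≤ 64 * s * (16 * s * (p + 2)) := Nat.mul_le_mul_left _ hp
      _ = 1024 * s ^ 2 * (p + 2) := by ring
  have h2 : 1024 * s ^ 2 * (p + 2) ≤ 1024 * s ^ 2 * q
      + 1024 * s ^ 2 * (E ^ 8 + 2 + (L + 2) * (E ^ 15 + 1)) := by
    rw [← mul_add]
    apply Nat.mul_le_mul_left
    omega
  have h3 : E ^ 8 + 2 + (L + 2) * (E ^ 15 + 1) ≤ s ^ 5 * E ^ 15 := by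
    have h31 : (L + 2) * (E ^ 15 + 1) ≤ (L + 2) * (2 * E ^ 15) := by
      apply Nat.mul_le_mul_left
      omega
    have h32 : E ^ 8 + 2 + (L + 2) * (2 * E ^ 15) ≤ (2 * L + 8) * E ^ 15 := by
      nlinarith
    have h33 : (2 * L + 8) * E ^ 15 ≤ s ^ 5 * E ^ 15 := by
      apply Nat.mul_le_mul_right
      omega
    omega
  have h4 : 1024 * s ^ 2 * (E ^ 8 + 2 + (L + 2) * (E ^ 15 + 1)) ≤ 1024 * s ^ 7 * E ^ 15 := by
    calc 1024 * s ^ 2 * (E ^ 8 + 2 + (L + 2) * (E ^ 15 + 1))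
        ≤ 1024 * s ^ 2 * (s ^ 5 * E ^ 15) := Nat.mul_le_mul_left _ h3
      _ = 1024 * s ^ 7 * E ^ 15 := by ring
  have h5 : 64 * s * E ^ 16 ≤ (16 * s + 1) * E ^ 16 + E ^ 15 + 1024 * s ^ 7 * E ^ 15 := by
    omega
  have h6 : s ^ 8 * E ^ 15 ≤ E ^ 16 := by
    calc s ^ 8 * E ^ 15 ≤ E * E ^ 15 := Nat.mul_le_mul_right _ hE
      _ = E ^ 16 := by ring
  have h7 : (16 * s + 1) * E ^ 16 + 47 * E ^ 16 ≤ 64 * s * E ^ 16 := by
    rw [← add_mul]
    apply Nat.mul_le_mul_right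
    omega
  have h8 : 1025 * (s ^ 7 * E ^ 15) < 47 * (s ^ 8 * E ^ 15) := by
    have h81 : 47 * (s ^ 8 * E ^ 15) = (47 * s) * (s ^ 7 * E ^ 15) := by ring
    rw [h81]
    apply Nat.mul_lt_mul_of_pos_right
    · omega
    · have : 0 < s ^ 7 := by positivity
      positivity
  have h9 : E ^ 15 + 1024 * s ^ 7 * E ^ 15 ≤ 1025 * (s ^ 7 * E ^ 15) := by
    have : E ^ 15 ≤ s ^ 7 * E ^ 15 := Nat.le_mul_of_pos_left _ (by positivity)
    nlinarith
  have h10 : 47 * (s ^ 8 * E ^ 15) ≤ 47 * E ^ 16 := Nat.mul_le_mul_left _ h6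
  omega

/-- Application of the core to two good primes. -/
theorem two_good_false (s n r h a k1 k2 : ℕ) (hs : 64 ≤ s)
    (hn1 : 2 ^ (16384 * s ^ 2) ≤ n)
    (hr : 2 ^ (8 * s) ≤ r) (hr2 : r + h ≤ 2 ^ (16 * s)) (hh : 0 < h) (hh2 : h < 2 ^ s)
    (ha : 2 * (a + 300 * s) ≤ 2 ^ s)
    (hk1 : k1 ≤ 2 ^ (16 * s)) (hk2 : k2 ≤ 2 ^ (16 * s))
    (hd1 : r ^ a ∣ n + k1) (hd2 : (r + h) ^ a ∣ n + k2)
    (hg1 : n ≤ r ^ a * 2 ^ (1024 * s ^ 2)) (hg2 : n ≤ (r + h) ^ a * 2 ^ (1024 * s ^ 2)) :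
    False := by
  have hs1 : 1 ≤ s := by omega
  have hn0 : 0 < n := lt_of_lt_of_le (by positivity) hn1
  have hY : 2 ^ (16 * s) ≤ n := by
    refine le_trans (Nat.pow_le_pow_right (by norm_num) ?_) hn1
    nlinarith
  have hr0 : 0 < r := lt_of_lt_of_le (by positivity) hr
  obtain ⟨m, hm⟩ := hd1
  obtain ⟨m', hm'⟩ := hd2
  have hra : 0 < r ^ a := by positivity
  have hra' : 0 < (r + h) ^ a := by positivity
  have hmpos : 0 < m := by
    rcases Nat.eq_zero_or_pos m with h0 | h0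
    · rw [h0, mul_zero] at hm; omega
    · exact h0
  have hmpos' : 0 < m' := by
    rcases Nat.eq_zero_or_pos m' with h0 | h0
    · rw [h0, mul_zero] at hm'; omega
    · exact h0
  have hmle : m ≤ 2 ^ (1024 * s ^ 2 + 1) := by
    have h1 : r ^ a * m ≤ r ^ a * 2 ^ (1024 * s ^ 2 + 1) := by
      calc r ^ a * m = n + k1 := hm.symm
        _ ≤ 2 * n := by omega
        _ ≤ 2 * (r ^ a * 2 ^ (1024 * s ^ 2)) := Nat.mul_le_mul_left _ hg1
        _ = r ^ a * 2 ^ (1024 * s ^ 2 + 1) := by ring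
    exact Nat.le_of_mul_le_mul_left h1 hra
  have hmle' : m' ≤ 2 ^ (1024 * s ^ 2 + 1) := by
    have h1 : (r + h) ^ a * m' ≤ (r + h) ^ a * 2 ^ (1024 * s ^ 2 + 1) := by
      calc (r + h) ^ a * m' = n + k2 := hm'.symm
        _ ≤ 2 * n := by omega
        _ ≤ 2 * ((r + h) ^ a * 2 ^ (1024 * s ^ 2)) := Nat.mul_le_mul_left _ hg2
        _ = (r + h) ^ a * 2 ^ (1024 * s ^ 2 + 1) := by ring
    exact Nat.le_of_mul_le_mul_left h1 hra'
  -- a is large
  have hrle : r ≤ 2 ^ (16 * s) := by omega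
  have ha2 : 960 * s ≤ a := by
    have h1 : 2 ^ (16384 * s ^ 2) ≤ 2 ^ (16 * s * a + 1024 * s ^ 2) := by
      calc 2 ^ (16384 * s ^ 2) ≤ n := hn1
        _ ≤ r ^ a * 2 ^ (1024 * s ^ 2) := hg1
        _ ≤ (2 ^ (16 * s)) ^ a * 2 ^ (1024 * s ^ 2) :=
            Nat.mul_le_mul_right _ (Nat.pow_le_pow_left hrle a)
        _ = 2 ^ (16 * s * a + 1024 * s ^ 2) := by rw [← pow_mul, ← pow_add]
    have h2 := (Nat.pow_le_pow_iff_right (by norm_num)).mp h1
    have h3 : 16 * s * (960 * s) ≤ 16 * s * a := by nlinarith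
    exact Nat.le_of_mul_le_mul_left h3 (by omega)
  have hja : 300 * s + 1 ≤ a := by omega
  -- the quantity 2 (a + j) h
  have hN : 2 * (a + 300 * s) * h ≤ 2 ^ (2 * s) := by
    calc 2 * (a + 300 * s) * h ≤ 2 ^ s * 2 ^ s := Nat.mul_le_mul ha hh2.le
      _ = 2 ^ (2 * s) := by rw [← pow_add]; congr 1; ring
  have hxN : 2 * (a + 300 * s) * h ≤ r := by
    refine hN.trans (le_trans (Nat.pow_le_pow_right (by norm_num) ?_) hr)
    omega
  have hxa : r ^ a = r ^ (a - 300 * s - 1) * r ^ (300 * s + 1) := by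
    rw [← pow_add]
    congr 1
    omega
  refine core n r h a (300 * s) m m' k1 k2 (by rw [hm]; ring) (by rw [hm']; ring) hja hh hmpos hmpos'
    hxN ?_ ?_
  · -- upper
    have hpos : 0 < r ^ (300 * s + 1) := by positivity
    apply Nat.lt_of_mul_lt_mul_right (a := r ^ (300 * s + 1))
    calc 2 * (m * m' * ((a + 300 * s) * ((2 * (a + 300 * s) * h) ^ (2 * (300 * s) + 1)
            * r ^ (a - 300 * s - 1)))) * r ^ (300 * s + 1)
        = 2 * ((r ^ a * m) * (m' * ((a + 300 * s)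
            * (2 * (a + 300 * s) * h) ^ (2 * (300 * s) + 1)))) := by
          rw [hxa]; ring
      _ ≤ 2 * ((2 * n) * (2 ^ (1024 * s ^ 2 + 1) * (2 ^ s
            * (2 ^ (2 * s)) ^ (2 * (300 * s) + 1)))) := by
          apply Nat.mul_le_mul_left
          apply Nat.mul_le_mul
          · rw [← hm]; omega
          · apply Nat.mul_le_mul hmle'
            apply Nat.mul_le_mul
            · omega
            · exact Nat.pow_le_pow_left hN _
      _ = n * 2 ^ (3 + 1024 * s ^ 2 + s + 2 * s * (2 * (300 * s) + 1)) := by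
          rw [← pow_mul 2 (2 * s), pow_add, pow_add, pow_add, pow_add]
          ring
      _ < n * 2 ^ (8 * s * (300 * s + 1)) := by
          apply Nat.mul_lt_mul_of_pos_left _ hn0
          apply Nat.pow_lt_pow_right (by norm_num)
          nlinarith
      _ ≤ n * r ^ (300 * s + 1) := by
          apply Nat.mul_le_mul_left
          rw [pow_mul 2 (8 * s)]
          exact Nat.pow_le_pow_left hr _
  · -- lower
    apply Nat.lt_of_mul_lt_mul_right (a := m * r ^ (300 * s + 1))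
    have hj1 : 300 * s + 1 ≤ 2 ^ (300 * s) := Nat.lt_two_pow_self
    calc (m * k2 + m' * k1) * ((300 * s + 1) * 4 ^ (300 * s) * (r + h) ^ (300 * s))
            * (m * r ^ (300 * s + 1))
        ≤ (2 ^ (1024 * s ^ 2 + 1) * 2 ^ (16 * s) + 2 ^ (1024 * s ^ 2 + 1) * 2 ^ (16 * s))
            * (2 ^ (300 * s) * 4 ^ (300 * s) * (2 ^ (16 * s)) ^ (300 * s))
            * (2 ^ (1024 * s ^ 2 + 1) * (2 ^ (16 * s)) ^ (300 * s + 1)) := by
          apply Nat.mul_le_mul
          · apply Nat.mul_le_mul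
            · apply Nat.add_le_add
              · exact Nat.mul_le_mul hmle hk2
              · exact Nat.mul_le_mul hmle' hk1
            · apply Nat.mul_le_mul
              · exact Nat.mul_le_mul_right _ hj1
              · exact Nat.pow_le_pow_left hr2 _
          · apply Nat.mul_le_mul hmle
            exact Nat.pow_le_pow_left hrle _
      _ = 2 ^ (3 + 1024 * s ^ 2 + 16 * s + 300 * s + 2 * (300 * s) + 16 * s * (300 * s)
            + 1024 * s ^ 2 + 16 * s * (300 * s + 1)) := by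
          rw [show (4 : ℕ) = 2 ^ 2 by norm_num, ← pow_mul 2 2, ← pow_mul 2 (16 * s) (300 * s),
            ← pow_mul 2 (16 * s) (300 * s + 1)]
          rw [pow_add 2 _ (16 * s * (300 * s + 1)), pow_add 2 _ (1024 * s ^ 2),
            pow_add 2 _ (16 * s * (300 * s)), pow_add 2 _ (2 * (300 * s)), pow_add 2 _ (300 * s),
            pow_add 2 _ (16 * s), pow_add 2 3, pow_add 2 (1024 * s ^ 2) 1]
          ring
      _ < 2 ^ (16384 * s ^ 2) := by
          apply Nat.pow_lt_pow_right (by norm_num)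
          nlinarith
      _ ≤ n := hn1
      _ ≤ n + k1 := Nat.le_add_right _ _
      _ = r ^ (a - 300 * s - 1) * (m * r ^ (300 * s + 1)) := by
          rw [hm, hxa]; ring

/-- Main theorem: the hypothesis fails for `n` in the `s`-th range, `s ≥ 64`. -/
theorem not_hyp_range (s n : ℕ) (hs : 64 ≤ s) (hn1 : 2 ^ (16384 * s ^ 2) ≤ n)
    (hn2 : n < 2 ^ (16384 * (s + 1) ^ 2)) : ¬ Hyp n := by
  intro hyp
  have hs1 : 1 ≤ s := by omega
  have hn0 : 0 < n := lt_of_lt_of_le (by positivity) hn1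
  set L := 16384 * (s + 1) ^ 2 with hL
  have hY : 2 ^ (16 * s) ≤ n := by
    refine le_trans (Nat.pow_le_pow_right (by norm_num) ?_) hn1
    nlinarith
  set P := Nat.primesLE (2 ^ (16 * s)) with hP
  have hpc := prime_count (16 * s) (by omega)
  rw [← hP] at hpc
  have h8 := pow8_le s hs
  have hLs := L_le s hs
  rw [← hL] at hLs
  have hE16 : (2 ^ s) ^ 16 = 2 ^ (16 * s) := by rw [← pow_mul]; congr 1; ring
  -- `S` is nonempty
  have hD : (P.filter (fun p => p ∣ n)).card ≤ L := by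
    apply card_dvd_le n L hn0 hn2
    · intro p hp
      exact (Nat.mem_primesLE.mp (mem_filter.mp hp).1).2
    · intro p hp
      exact (mem_filter.mp hp).2
  have hnum0 := numeric s (2 ^ s) L P.card 0 hs h8 hLs (by rw [hE16]; exact hpc) (by simp)
  have hSne : (P.filter (fun p => ¬ p ∣ n)).Nonempty := by
    rw [← Finset.card_pos]
    have hcard : (P.filter (fun p => p ∣ n)).card + (P.filter (fun p => ¬ p ∣ n)).card = P.card :=
      Finset.card_filter_add_card_filter_not _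
    have h1 : L + 2 ≤ (L + 2) * ((2 ^ s) ^ 15 + 1) := Nat.le_mul_of_pos_right _ (by omega)
    omega
  obtain ⟨w, hw, hkey⟩ := key n (2 ^ (16 * s)) hyp hn0 hSne
  have hbad := bad_bound n (16 * s) L (1024 * s ^ 2) w hn0 hn2 hY hw hkey
  rw [← hP] at hbad
  set B := P.filter (fun r => r ^ (n + w r).factorization r * 2 ^ (1024 * s ^ 2) < n) with hB
  have hnum := numeric s (2 ^ s) L P.card B.card hs h8 hLs (by rw [hE16]; exact hpc)
    (by rw [hE16]; exact hbad)
  set G := (P \ B) \ Finset.range (2 ^ (8 * s)) with hG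
  have hGcard : (L + 2) * ((2 ^ s) ^ 15 + 1) < G.card := by
    have h1 : P.card - B.card ≤ (P \ B).card := Finset.le_card_sdiff _ _
    have h2 : (P \ B).card - (Finset.range (2 ^ (8 * s))).card ≤ G.card :=
      Finset.le_card_sdiff _ _
    rw [Finset.card_range] at h2
    have h3 : (2 ^ s) ^ 8 = 2 ^ (8 * s) := by rw [← pow_mul]; congr 1; ring
    rw [h3] at hnum
    omega
  have hGmem : ∀ r ∈ G, r.Prime ∧ r ≤ 2 ^ (16 * s) ∧ 2 ^ (8 * s) ≤ r ∧
      n ≤ r ^ (n + w r).factorization r * 2 ^ (1024 * s ^ 2) := by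
    intro r hr
    rw [hG, mem_sdiff, mem_sdiff, Finset.mem_range, hB, mem_filter] at hr
    obtain ⟨⟨hrP, hrB⟩, hr8⟩ := hr
    have h1 := Nat.mem_primesLE.mp hrP
    refine ⟨h1.2, h1.1, by omega, ?_⟩
    by_contra h
    exact hrB ⟨hrP, by omega⟩
  -- pigeonhole
  obtain ⟨r, hr, r', hr', hne, hf⟩ := Finset.exists_ne_map_eq_of_card_lt_of_maps_to
    (s := G) (t := Finset.range (L + 2) ×ˢ Finset.range ((2 ^ s) ^ 15 + 1))
    (by rw [Finset.card_product, Finset.card_range, Finset.card_range]; exact hGcard)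
    (f := fun r => ((n + w r).factorization r, r / 2 ^ s))
    (by
      intro r hr
      have h1 := hGmem r hr
      simp only [Finset.coe_product, Set.mem_prod, Finset.mem_coe, Finset.mem_range]
      constructor
      · have h2 : 2 ^ (n + w r).factorization r < 2 ^ (L + 1) := by
          calc 2 ^ (n + w r).factorization r ≤ r ^ (n + w r).factorization r :=
                Nat.pow_le_pow_left h1.1.two_le _
            _ ≤ n + w r := Nat.le_of_dvd (by omega) (Nat.ordProj_dvd _ _)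
            _ ≤ 2 * n := by have := (hw r).2; omega
            _ < 2 * 2 ^ L := by omega
            _ = 2 ^ (L + 1) := by ring_nf
        have := (Nat.pow_lt_pow_iff_right (by norm_num)).mp h2
        omega
      · have h2 : r / 2 ^ s ≤ (2 ^ s) ^ 15 := by
          apply Nat.div_le_of_le_mul
          calc r ≤ 2 ^ (16 * s) := h1.2.1
            _ = 2 ^ s * (2 ^ s) ^ 15 := by rw [← hE16]; ring
        omega)
  simp only [Prod.mk.injEq] at hf
  obtain ⟨hfa, hfq⟩ := hf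
  -- symmetric statement
  have hsym : ∀ r r' : ℕ, r ∈ G → r' ∈ G → r < r' →
      (n + w r).factorization r = (n + w r').factorization r' →
      r / 2 ^ s = r' / 2 ^ s → False := by
    intro r r' hr hr' hlt hfa hfq
    have h1 := hGmem r hr
    have h1' := hGmem r' hr'
    set a := (n + w r).factorization r with ha
    have hd1 : r ^ a ∣ n + w r := Nat.ordProj_dvd _ _
    have hd2 : r' ^ a ∣ n + w r' := by rw [hfa]; exact Nat.ordProj_dvd _ _
    have hgap : r' - r < 2 ^ s := by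
      have e1 := Nat.div_add_mod r (2 ^ s)
      have e2 := Nat.div_add_mod r' (2 ^ s)
      have e3 := Nat.mod_lt r' (show 0 < 2 ^ s by positivity)
      rw [hfq] at e1
      omega
    have haL : a ≤ L + 1 := by
      have h2 : 2 ^ a < 2 ^ (L + 1) := by
        calc 2 ^ a ≤ r ^ a := Nat.pow_le_pow_left h1.1.two_le _
          _ ≤ n + w r := Nat.le_of_dvd (by omega) hd1
          _ ≤ 2 * n := by have := (hw r).2; omega
          _ < 2 * 2 ^ L := by omega
          _ = 2 ^ (L + 1) := by ring_nf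
      have := (Nat.pow_lt_pow_iff_right (by norm_num)).mp h2
      omega
    have ha2 : 2 * (a + 300 * s) ≤ 2 ^ s := by
      refine le_trans ?_ h8
      have hs5 : 64 ^ 4 * s ≤ s ^ 5 := by
        calc 64 ^ 4 * s ≤ s ^ 4 * s := Nat.mul_le_mul_right _ (Nat.pow_le_pow_left hs 4)
          _ = s ^ 5 := by ring
      have hs8 : s ^ 5 ≤ s ^ 8 := Nat.pow_le_pow_right hs1 (by norm_num)
      omega
    obtain ⟨h, rfl⟩ : ∃ h, r' = r + h := ⟨r' - r, by omega⟩
    exact two_good_false s n r h a (w r) (w (r + h)) hs hn1 h1.2.2.1 h1'.2.1 (by omega)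
      (by omega) ha2 (hw r).2 (hw (r + h)).2 hd1 hd2 h1.2.2.2 (by rw [hfa]; exact h1'.2.2.2)
  rcases lt_or_gt_of_ne hne with hlt | hlt
  · exact hsym r r' hr hr' hlt hfa hfq
  · exact hsym r' r hr' hr hlt hfa.symm hfq.symm

/-- For all large `n` the hypothesis fails. -/
theorem not_hyp (n : ℕ) (hn : 16384 * 64 ^ 2 ≤ Nat.log 2 n) : ¬ Hyp n := by
  have hn0 : n ≠ 0 := by
    rintro rfl
    rw [Nat.log_zero_right] at hn
    omega
  set l := Nat.log 2 n with hl
  set s := Nat.sqrt (l / 16384) with hs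
  have h1 : s ^ 2 ≤ l / 16384 := Nat.sqrt_le' _
  have h2 : l / 16384 < (s + 1) ^ 2 := Nat.lt_succ_sqrt' _
  have h3 : 16384 * s ^ 2 ≤ l := by
    calc 16384 * s ^ 2 ≤ 16384 * (l / 16384) := Nat.mul_le_mul_left _ h1
      _ ≤ l := Nat.mul_div_le l 16384
  have h4 : l + 1 ≤ 16384 * (s + 1) ^ 2 := by
    have h5 : l / 16384 + 1 ≤ (s + 1) ^ 2 := h2
    have h6 := Nat.div_add_mod l 16384
    have h7 := Nat.mod_lt l (show 0 < 16384 by norm_num)
    have h8 : 16384 * (l / 16384 + 1) ≤ 16384 * (s + 1) ^ 2 := Nat.mul_le_mul_left _ h5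
    omega
  have hs64 : 64 ≤ s := by
    rw [hs, Nat.le_sqrt', Nat.le_div_iff_mul_le (by norm_num)]
    omega
  apply not_hyp_range s n hs64
  · exact (Nat.pow_le_pow_right (by norm_num) h3).trans (Nat.pow_log_le_self 2 hn0)
  · exact lt_of_lt_of_le (Nat.lt_pow_succ_log_self (by norm_num) n)
      (Nat.pow_le_pow_right (by norm_num) h4)

theorem finite_log_lt (K : ℕ) : {n : ℕ | Nat.log 2 n < K}.Finite := by
  apply (Set.finite_lt_nat (2 ^ K)).subset
  intro n hn
  have h1 : n < 2 ^ (Nat.log 2 n + 1) := Nat.lt_pow_succ_log_self (by norm_num) n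
  exact lt_of_lt_of_le h1 (Nat.pow_le_pow_right (by norm_num) hn)

end Pool.Agent.Helper89.ES
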