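import Mathlib

set_option autoImplicit false

namespace Pool.Agent.Helper89.ES

open Finset

/-- The polynomial `B_j(m) = C(m-j-1, j)` written in the binomial basis. -/
theorem B_eq (j m : ℕ) :
    (∑ i ∈ range (j + 1), (-1 : ℤ) ^ (j - i) * ((2 * j - i).choose j : ℤ) * (m.choose i : ℤ))
      = Ring.choose ((m : ℤ) - j - 1) j := by
  have h1 : ((m : ℤ) - j - 1) = (m : ℤ) + (-((j : ℤ) + 1)) := by ring
  rw [h1, Ring.add_choose_eq j (Commute.all _ _), Finset.Nat.sum_antidiagonal_eq_sum_range_succ_mk]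
  apply Finset.sum_congr rfl
  intro i hi
  have hij : i ≤ j := by
    have := Finset.mem_range.mp hi
    omega
  simp only
  rw [Ring.choose_neg]
  have h2 : ((j : ℤ) + 1 + ((j - i : ℕ) : ℤ) - 1) = ((2 * j - i : ℕ) : ℤ) := by
    push_cast [Nat.cast_sub hij, Nat.cast_sub (show i ≤ 2 * j by omega)]
    ring
  rw [h2, Ring.choose_natCast, Ring.choose_natCast]
  have h3 : (2 * j - i).choose (j - i) = (2 * j - i).choose j := by
    have h4 : (2 * j - i) - (j - i) = j := by omega
    rw [← Nat.choose_symm (show j - i ≤ 2 * j - i by omega), h4]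
  rw [h3, Int.negOnePow_def, Units.smul_def]
  simp only [zpow_natCast, Units.val_pow_eq_pow_val, Units.val_neg, Units.val_one, smul_eq_mul]
  ring

theorem B_low (j m : ℕ) (hm : m ≤ j) :
    Ring.choose ((m : ℤ) - j - 1) j = (-1) ^ j * ((2 * j - m).choose j : ℤ) := by
  have h1 : ((m : ℤ) - j - 1) = -(((j + 1 - m : ℕ)) : ℤ) := by
    push_cast [Nat.cast_sub (show m ≤ j + 1 by omega)]
    ring
  rw [h1, Ring.choose_neg]
  have h2 : (((j + 1 - m : ℕ) : ℤ) + (j : ℤ) - 1) = ((2 * j - m : ℕ) : ℤ) := by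
    push_cast [Nat.cast_sub (show m ≤ j + 1 by omega), Nat.cast_sub (show m ≤ 2 * j by omega)]
    ring
  rw [h2, Ring.choose_natCast, Int.negOnePow_def, Units.smul_def]
  simp

theorem B_high (j m : ℕ) (hm : j < m) :
    Ring.choose ((m : ℤ) - j - 1) j = ((m - j - 1).choose j : ℤ) := by
  have h1 : ((m : ℤ) - j - 1) = ((m - j - 1 : ℕ) : ℤ) := by
    push_cast [Nat.cast_sub (show 1 ≤ m - j by omega), Nat.cast_sub (show j ≤ m by omega)]
    ring
  rw [h1, Ring.choose_natCast]

theorem sum_choose_choose (N i : ℕ) (hi : i ≤ N) (x h : ℤ) :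
    ∑ m ∈ range (N + 1), ((N.choose m : ℤ) * (m.choose i : ℤ)) * h ^ m * x ^ (N - m)
      = (N.choose i : ℤ) * h ^ i * (x + h) ^ (N - i) := by
  rw [add_comm x h, add_pow, Finset.mul_sum]
  rw [← Finset.sum_range_add_sum_Ico _ (show i ≤ N + 1 by omega)]
  have h0 : ∑ m ∈ range i, ((N.choose m : ℤ) * (m.choose i : ℤ)) * h ^ m * x ^ (N - m) = 0 := by
    apply Finset.sum_eq_zero
    intro m hm
    rw [Nat.choose_eq_zero_of_lt (Finset.mem_range.mp hm)]
    simp
  rw [h0, zero_add, Finset.sum_Ico_eq_sum_range]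
  have h1 : N + 1 - i = N - i + 1 := by omega
  rw [h1]
  apply Finset.sum_congr rfl
  intro k hk
  have hk' : k ≤ N - i := by
    have := Finset.mem_range.mp hk
    omega
  have h2 : (N.choose (i + k) : ℤ) * ((i + k).choose i : ℤ) = (N.choose i : ℤ) * ((N - i).choose k : ℤ) := by
    have := Nat.choose_mul (n := N) (k := i + k) (s := i) (by omega)
    rw [show i + k - i = k by omega] at this
    exact_mod_cast this
  rw [h2, show N - (i + k) = N - i - k by omega, pow_add]
  ring

/-- The integer `Q`. -/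
def Q (a j : ℕ) (x h : ℤ) : ℤ :=
  ∑ i ∈ range (j + 1), (-1 : ℤ) ^ (j - i) * ((2 * j - i).choose j : ℤ) * ((a + j).choose i : ℤ)
    * h ^ i * (x + h) ^ (j - i)

/-- The integer `P`. -/
def P (a j : ℕ) (x h : ℤ) : ℤ :=
  ∑ i ∈ range (j + 1), (-1 : ℤ) ^ j * ((2 * j - i).choose j : ℤ) * ((a + j).choose i : ℤ)
    * h ^ i * x ^ (j - i)

/-- The remainder. -/
def T (a j : ℕ) (x h : ℤ) : ℤ :=
  ∑ m ∈ Ico (2 * j + 1) (a + j + 1), ((a + j).choose m : ℤ) * ((m - j - 1).choose j : ℤ)
    * h ^ m * x ^ (a + j - m)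

theorem pade (a j : ℕ) (hj : j ≤ a) (x h : ℤ) :
    (x + h) ^ a * Q a j x h - x ^ a * P a j x h = T a j x h := by
  have htot : ∑ m ∈ range (a + j + 1), ((a + j).choose m : ℤ) * Ring.choose ((m : ℤ) - j - 1) j
      * h ^ m * x ^ (a + j - m) = (x + h) ^ a * Q a j x h := by
    simp_rw [← B_eq, Finset.mul_sum, Finset.sum_mul]
    rw [Finset.sum_comm, Q, Finset.mul_sum]
    apply Finset.sum_congr rfl
    intro i hi
    have hij : i ≤ j := by
      have := Finset.mem_range.mp hi
      omega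
    have := sum_choose_choose (a + j) i (by omega) x h
    calc ∑ m ∈ range (a + j + 1), ((a + j).choose m : ℤ) *
          ((-1 : ℤ) ^ (j - i) * ((2 * j - i).choose j : ℤ) * (m.choose i : ℤ)) * h ^ m
            * x ^ (a + j - m)
        = ((-1 : ℤ) ^ (j - i) * ((2 * j - i).choose j : ℤ)) *
          ∑ m ∈ range (a + j + 1), (((a + j).choose m : ℤ) * (m.choose i : ℤ)) * h ^ m
            * x ^ (a + j - m) := by
          rw [Finset.mul_sum]
          apply Finset.sum_congr rfl
          intro m _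
          ring
      _ = _ := by
          rw [this, show a + j - i = a + (j - i) by omega, pow_add]
          ring
  rw [← htot, ← Finset.sum_range_add_sum_Ico _ (show j + 1 ≤ a + j + 1 by omega),
    ← Finset.sum_Ico_consecutive _ (show j + 1 ≤ 2 * j + 1 by omega)
      (show 2 * j + 1 ≤ a + j + 1 by omega)]
  have hlow : ∑ m ∈ range (j + 1), ((a + j).choose m : ℤ) * Ring.choose ((m : ℤ) - j - 1) j
      * h ^ m * x ^ (a + j - m) = x ^ a * P a j x h := by
    rw [P, Finset.mul_sum]
    apply Finset.sum_congr rfl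
    intro m hm
    have hmj : m ≤ j := by
      have := Finset.mem_range.mp hm
      omega
    rw [B_low j m hmj, show a + j - m = a + (j - m) by omega, pow_add]
    ring
  have hmid : ∑ m ∈ Ico (j + 1) (2 * j + 1), ((a + j).choose m : ℤ)
      * Ring.choose ((m : ℤ) - j - 1) j * h ^ m * x ^ (a + j - m) = 0 := by
    apply Finset.sum_eq_zero
    intro m hm
    have := Finset.mem_Ico.mp hm
    rw [B_high j m (by omega), Nat.choose_eq_zero_of_lt (show m - j - 1 < j by omega)]
    simp
  have hhigh : ∑ m ∈ Ico (2 * j + 1) (a + j + 1), ((a + j).choose m : ℤ)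
      * Ring.choose ((m : ℤ) - j - 1) j * h ^ m * x ^ (a + j - m) = T a j x h := by
    rw [T]
    apply Finset.sum_congr rfl
    intro m hm
    have := Finset.mem_Ico.mp hm
    rw [B_high j m (by omega)]
  rw [hlow, hmid, hhigh]
  ring

end Pool.Agent.Helper89.ES
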