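import Mathlib

set_option autoImplicit false

namespace Pool.Agent.Helper89.ES

open Finset

/-- The hypothesis: for every `k ≥ 1`, `n + k` has at most one prime factor exceeding `k`. -/
def Hyp (n : ℕ) : Prop :=
  ∀ k : ℕ, 1 ≤ k → ∀ p q : ℕ, p.Prime → q.Prime → p ∣ n + k → q ∣ n + k → k < p → k < q → p = q

/-- `kap n p` is the least `k ≥ 1` with `p ∣ n + k`. -/
def kap (n p : ℕ) : ℕ := p - n % p

theorem kap_pos {n p : ℕ} (hp : p.Prime) : 1 ≤ kap n p := by
  have := Nat.mod_lt n hp.pos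
  unfold kap
  omega

theorem kap_lt {n p : ℕ} (hp : p.Prime) (h : ¬ p ∣ n) : kap n p < p := by
  have h1 : n % p ≠ 0 := fun h0 => h (Nat.dvd_of_mod_eq_zero h0)
  have := hp.pos
  unfold kap
  omega

theorem dvd_kap {n p : ℕ} (hp : p.Prime) : p ∣ n + kap n p := by
  have h1 := Nat.mod_lt n hp.pos
  have h2 := Nat.div_add_mod n p
  refine ⟨n / p + 1, ?_⟩
  unfold kap
  rw [mul_add, mul_one]
  omega

theorem kap_smooth {n p : ℕ} (hyp : Hyp n) (hp : p.Prime) (hpn : ¬ p ∣ n) {r : ℕ} (hr : r.Prime)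
    (hrn : r ∣ n + kap n p) : r ≤ p := by
  by_contra hlt
  push Not at hlt
  have h1 := kap_lt hp hpn
  have := hyp (kap n p) (kap_pos hp) p r hp hr (dvd_kap hp) hrn h1 (by omega)
  omega

theorem kap_inj {n p q : ℕ} (hyp : Hyp n) (hp : p.Prime) (hq : q.Prime) (hpn : ¬ p ∣ n)
    (hqn : ¬ q ∣ n) (h : kap n p = kap n q) : p = q := by
  have h1 := kap_lt hp hpn
  have h2 := kap_lt hq hqn
  exact hyp (kap n p) (kap_pos hp) p q hp hq (dvd_kap hp) (h ▸ dvd_kap hq) h1 (h ▸ h2)

/-- product of distances from `c` over `[1,Y]` without `c` divides `Y!`. -/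
theorem prod_dist_dvd (Y c : ℕ) (hc1 : 1 ≤ c) (hcY : c ≤ Y) :
    ∏ k ∈ (Icc 1 Y).erase c, Nat.dist k c ∣ Y.factorial := by
  have hsplit : (Icc 1 Y).erase c = (Ico 1 c) ∪ (Ico (c + 1) (Y + 1)) := by
    ext k
    simp only [mem_erase, mem_Icc, mem_union, mem_Ico]
    omega
  have hdisj : Disjoint (Ico 1 c) (Ico (c + 1) (Y + 1)) := by
    rw [Finset.disjoint_left]
    intro k hk hk'
    have h1 := mem_Ico.mp hk
    have h2 := mem_Ico.mp hk'
    omega
  rw [hsplit, prod_union hdisj]
  have hA : ∏ k ∈ Ico 1 c, Nat.dist k c = (c - 1).factorial := by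
    have h1 : ∏ k ∈ Ico 1 c, Nat.dist k c = ∏ k ∈ Ico 1 c, (c - k) := by
      apply Finset.prod_congr rfl
      intro k hk
      have := mem_Ico.mp hk
      rw [Nat.dist_eq_sub_of_le (by omega)]
    rw [h1]
    rw [Finset.prod_Ico_eq_prod_range, ← Finset.prod_range_reflect, ← Finset.prod_range_add_one_eq_factorial]
    apply Finset.prod_congr rfl
    intro k hk
    have := mem_range.mp hk
    omega
  have hB : ∏ k ∈ Ico (c + 1) (Y + 1), Nat.dist k c = (Y - c).factorial := by
    have h1 : ∏ k ∈ Ico (c + 1) (Y + 1), Nat.dist k c = ∏ k ∈ Ico (c + 1) (Y + 1), (k - c) := by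
      apply Finset.prod_congr rfl
      intro k hk
      have := mem_Ico.mp hk
      rw [Nat.dist_eq_sub_of_le_right (by omega)]
    rw [h1, Finset.prod_Ico_eq_prod_range, ← Finset.prod_range_add_one_eq_factorial]
    have h2 : Y + 1 - (c + 1) = Y - c := by omega
    rw [h2]
    apply Finset.prod_congr rfl
    intro k hk
    omega
  rw [hA, hB]
  have h3 : (c - 1).factorial ∣ c.factorial := Nat.factorial_dvd_factorial (by omega)
  exact (Nat.mul_dvd_mul_right h3 _).trans (Nat.factorial_mul_factorial_dvd_factorial hcY)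

theorem pow_dvd_dist {r e a b c : ℕ} (h1 : r ^ e ∣ a + b) (h2 : r ^ e ∣ a + c) : r ^ e ∣ Nat.dist b c := by
  rcases le_total b c with h | h
  · rw [Nat.dist_eq_sub_of_le h]
    have := Nat.dvd_sub h2 h1
    rwa [show a + c - (a + b) = c - b by omega] at this
  · rw [Nat.dist_eq_sub_of_le_right h]
    have := Nat.dvd_sub h1 h2
    rwa [show a + b - (a + c) = b - c by omega] at this

/-- Erdős' product trick: sum of the non-maximal valuations is bounded by the valuation of `Y!`. -/
theorem sum_val_le (n Y : ℕ) (hyp : Hyp n) (r : ℕ) (hr : r.Prime) (p0 : ℕ)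
    (hp0 : p0 ∈ (Nat.primesLE Y).filter (fun p => ¬ p ∣ n))
    (hmax : ∀ p ∈ (Nat.primesLE Y).filter (fun p => ¬ p ∣ n),
      (n + kap n p).factorization r ≤ (n + kap n p0).factorization r) :
    ∑ p ∈ ((Nat.primesLE Y).filter (fun p => ¬ p ∣ n)).erase p0, (n + kap n p).factorization r
      ≤ (Y.factorial).factorization r := by
  set S := (Nat.primesLE Y).filter (fun p => ¬ p ∣ n) with hS
  have hmem : ∀ p ∈ S, p.Prime ∧ p ≤ Y ∧ ¬ p ∣ n := by
    intro p hp
    rw [hS, mem_filter, Nat.mem_primesLE] at hp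
    exact ⟨hp.1.2, hp.1.1, hp.2⟩
  obtain ⟨hp0p, hp0Y, hp0n⟩ := hmem p0 hp0
  set c := kap n p0 with hc
  have hc1 : 1 ≤ c := kap_pos hp0p
  have hcY : c ≤ Y := by
    have := kap_lt hp0p hp0n
    omega
  have hinj : Set.InjOn (kap n) (S.erase p0 : Finset ℕ) := by
    intro p hp q hq hpq
    have h1 := hmem p (mem_of_mem_erase hp)
    have h2 := hmem q (mem_of_mem_erase hq)
    exact kap_inj hyp h1.1 h2.1 h1.2.2 h2.2.2 hpq
  have himg : (S.erase p0).image (kap n) ⊆ (Icc 1 Y).erase c := by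
    intro k hk
    obtain ⟨p, hp, rfl⟩ := mem_image.mp hk
    have h1 := hmem p (mem_of_mem_erase hp)
    rw [mem_erase, mem_Icc]
    refine ⟨?_, kap_pos h1.1, ?_⟩
    · intro h
      exact (ne_of_mem_erase hp) (kap_inj hyp h1.1 hp0p h1.2.2 hp0n h)
    · have := kap_lt h1.1 h1.2.2
      omega
  have hdist : ∀ k ∈ (Icc 1 Y).erase c, Nat.dist k c ≠ 0 := by
    intro k hk h0
    exact (ne_of_mem_erase hk) (Nat.eq_of_dist_eq_zero h0)
  calc ∑ p ∈ S.erase p0, (n + kap n p).factorization r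
      ≤ ∑ p ∈ S.erase p0, (Nat.dist (kap n p) c).factorization r := by
        apply Finset.sum_le_sum
        intro p hp
        have hpS := mem_of_mem_erase hp
        have hk : kap n p ∈ (Icc 1 Y).erase c := himg (mem_image_of_mem _ hp)
        have hd := hdist _ hk
        rw [← hr.pow_dvd_iff_le_factorization hd]
        apply pow_dvd_dist (a := n)
        · exact Nat.ordProj_dvd _ _
        · exact (pow_dvd_pow r (hmax p hpS)).trans (Nat.ordProj_dvd _ _)
    _ = ∑ k ∈ (S.erase p0).image (kap n), (Nat.dist k c).factorization r := by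
        rw [Finset.sum_image hinj]
    _ ≤ ∑ k ∈ (Icc 1 Y).erase c, (Nat.dist k c).factorization r :=
        Finset.sum_le_sum_of_subset himg
    _ = (∏ k ∈ (Icc 1 Y).erase c, Nat.dist k c).factorization r := by
        rw [Nat.factorization_prod hdist, Finset.sum_apply']
    _ ≤ (Y.factorial).factorization r := by
        have h1 := prod_dist_dvd Y c hc1 hcY
        have h2 : ∏ k ∈ (Icc 1 Y).erase c, Nat.dist k c ≠ 0 := Finset.prod_ne_zero_iff.mpr hdist
        exact (Nat.factorization_le_iff_dvd h2 (Nat.factorial_ne_zero Y)).mpr h1 r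

theorem prod_pow_fact_eq {m Y : ℕ} (hm : m ≠ 0) (h : ∀ r : ℕ, r.Prime → r ∣ m → r ≤ Y) :
    ∏ r ∈ Nat.primesLE Y, r ^ m.factorization r = m := by
  conv_rhs => rw [← Nat.prod_factorization_pow_eq_self hm]
  rw [Finsupp.prod_of_support_subset]
  · intro r hr
    rw [Nat.support_factorization, Nat.mem_primeFactors] at hr
    exact Nat.mem_primesLE.mpr ⟨h r hr.1 hr.2.1, hr.1⟩
  · intro r _
    exact pow_zero r

theorem key (n Y : ℕ) (hyp : Hyp n) (hn : 0 < n)
    (hne : ((Nat.primesLE Y).filter (fun p => ¬ p ∣ n)).Nonempty) :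
    ∃ w : ℕ → ℕ, (∀ r, 1 ≤ w r ∧ w r ≤ Y) ∧
      n ^ ((Nat.primesLE Y).filter (fun p => ¬ p ∣ n)).card
        ≤ (∏ r ∈ Nat.primesLE Y, r ^ (n + w r).factorization r) * Y.factorial := by
  set S := (Nat.primesLE Y).filter (fun p => ¬ p ∣ n) with hS
  have hmem : ∀ p ∈ S, p.Prime ∧ p ≤ Y ∧ ¬ p ∣ n := by
    intro p hp
    rw [hS, mem_filter, Nat.mem_primesLE] at hp
    exact ⟨hp.1.2, hp.1.1, hp.2⟩
  have hex : ∀ r : ℕ, ∃ p0 ∈ S, ∀ p ∈ S,
      (n + kap n p).factorization r ≤ (n + kap n p0).factorization r := fun r =>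
    Finset.exists_max_image S (fun p => (n + kap n p).factorization r) hne
  choose ps hps hmax using hex
  refine ⟨fun r => kap n (ps r), ?_, ?_⟩
  · intro r
    have h1 := hmem _ (hps r)
    have h2 := kap_lt h1.1 h1.2.2
    have h3 := h1.2.1
    exact ⟨kap_pos h1.1, le_trans (le_of_lt h2) h3⟩
  · calc n ^ S.card = ∏ p ∈ S, n := by rw [Finset.prod_const]
      _ ≤ ∏ p ∈ S, (n + kap n p) := Finset.prod_le_prod' (fun p _ => Nat.le_add_right _ _)
      _ = ∏ p ∈ S, ∏ r ∈ Nat.primesLE Y, r ^ (n + kap n p).factorization r := by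
          apply Finset.prod_congr rfl
          intro p hp
          have h1 := hmem p hp
          rw [prod_pow_fact_eq (by omega)]
          intro r hr hrn
          exact (kap_smooth hyp h1.1 h1.2.2 hr hrn).trans h1.2.1
      _ = ∏ r ∈ Nat.primesLE Y, ∏ p ∈ S, r ^ (n + kap n p).factorization r := Finset.prod_comm
      _ ≤ ∏ r ∈ Nat.primesLE Y,
            (r ^ (n + kap n (ps r)).factorization r * r ^ (Y.factorial).factorization r) := by
          apply Finset.prod_le_prod'
          intro r hr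
          have hrp := (Nat.mem_primesLE.mp hr).2
          rw [Finset.prod_pow_eq_pow_sum, ← pow_add]
          apply Nat.pow_le_pow_right hrp.pos
          rw [← Finset.add_sum_erase S _ (hps r)]
          exact Nat.add_le_add_left (sum_val_le n Y hyp r hrp (ps r) (hps r) (hmax r)) _
      _ = (∏ r ∈ Nat.primesLE Y, r ^ (n + kap n (ps r)).factorization r) * Y.factorial := by
          rw [Finset.prod_mul_distrib]
          congr 1
          apply prod_pow_fact_eq (Nat.factorial_ne_zero Y)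
          intro r hr hrn
          exact (Nat.Prime.dvd_factorial hr).mp hrn

end Pool.Agent.Helper89.ES
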